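import Pool.Agent.W397.Descent

/-!
Descent of the separation of jets from an extension field of `ℂ` to `ℂ`, for a space of
polynomials (after `Pool.Agent.W397.Descent`).
-/

set_option autoImplicit false

namespace Pool.Agent.TH493.NEF

open Pool.Agent.W607 Pool.Agent.W397 MvPolynomial

theorem smul_eqA {A : Type*} [CommRing A] (c : A) (G : BB A) :
    c • G = Polynomial.C (C c) * G := by
  rw [← Polynomial.smul_eq_C_mul, ← MvPolynomial.algebraMap_eq, algebraMap_smul]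

/-- specialisation of a combination -/
theorem span_map {A : Type*} [CommRing A] [Algebra ℂ A] (φ : A →ₐ[ℂ] ℂ)
    (S : Submodule ℂ (BB ℂ)) {x : BB A}
    (hx : x ∈ Submodule.span A
      ((fun G : BB ℂ => G.map (MvPolynomial.map (algebraMap ℂ A))) '' (S : Set (BB ℂ)))) :
    x.map (MvPolynomial.map (φ : A →+* ℂ)) ∈ S := by
  induction hx using Submodule.span_induction with
  | mem x hx =>
    obtain ⟨G, hG, rfl⟩ := hx
    show (G.map _).map _ ∈ S
    rw [Polynomial.map_map]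
    have h1 : (MvPolynomial.map (φ : A →+* ℂ)).comp (MvPolynomial.map (algebraMap ℂ A)) =
        RingHom.id (MvPolynomial (Fin 2) ℂ) := by
      refine MvPolynomial.ringHom_ext (fun c => ?_) fun i => ?_
      · simp
      · simp
    rw [h1, Polynomial.map_id]
    exact hG
  | zero => rw [Polynomial.map_zero]; exact S.zero_mem
  | add x y _ _ hx hy => rw [Polynomial.map_add]; exact S.add_mem hx hy
  | smul c x _ hx =>
    rw [smul_eqA, Polynomial.map_mul, Polynomial.map_C, MvPolynomial.map_C, ← smul_eqA]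
    exact S.smul_mem _ hx

/-- The descent, once a `ℂ`-algebra `A` with an injective map to `F`, a map to `ℂ` and lifts of
all the data are given. -/
theorem descent_auxS {F A : Type*} [Field F] [Algebra ℂ F] [CommRing A] [Algebra ℂ A]
    (ι : A →ₐ[ℂ] F) (hι : Function.Injective ι) (φ : A →ₐ[ℂ] ℂ)
    (Φ : BB ℂ) (g : AA ℂ) (n : ℕ) (S : Submodule ℂ (BB ℂ)) (s : ℕ)
    (p0 : Fin n → Fin 2 → A) (Θ0 : Fin n → MvPolynomial (Fin 2) A)
    (h1 : ∀ q, ev (K := ℂ) (X 0 + C (ι (p0 q 0))) (X 1 + C (ι (p0 q 1)))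
      (MvPolynomial.map (ι : A →+* F) (Θ0 q)) Φ ∈ (nn F) ^ s)
    (h2 : ∀ q, ∃ u : A, ι u * aeval (fun i => ι (p0 q i)) g = 1)
    (h3 : ∀ q, ∃ u : A, ι u * ev (K := ℂ) (ι (p0 q 0)) (ι (p0 q 1))
      (constantCoeff (MvPolynomial.map (ι : A →+* F) (Θ0 q))) Φ.derivative = 1)
    (D : Finset (Fin 2 →₀ ℕ)) (hD : ∀ α, α ∈ D ↔ Finsupp.degree α < s)
    (G0 : Fin n → (Fin 2 →₀ ℕ) → BB A)
    (hGV : ∀ q, ∀ α ∈ D, G0 q α ∈ Submodule.span A
      ((fun G : BB ℂ => G.map (MvPolynomial.map (algebraMap ℂ A))) '' (S : Set (BB ℂ))))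
    (hGq : ∀ q, ∀ α ∈ D, ev (K := F) (X 0 + C (ι (p0 q 0))) (X 1 + C (ι (p0 q 1)))
      (MvPolynomial.map (ι : A →+* F) (Θ0 q))
      (Polynomial.map (MvPolynomial.map (ι : A →+* F)) (G0 q α)) - monomial α 1 ∈ (nn F) ^ s)
    (hGq' : ∀ q, ∀ α ∈ D, ∀ q', q' ≠ q →
      ev (K := F) (X 0 + C (ι (p0 q' 0))) (X 1 + C (ι (p0 q' 1)))
      (MvPolynomial.map (ι : A →+* F) (Θ0 q'))
      (Polynomial.map (MvPolynomial.map (ι : A →+* F)) (G0 q α)) ∈ (nn F) ^ s) :
    ∃ (p' : Fin n → Fin 2 → ℂ) (Θ' : Fin n → MvPolynomial (Fin 2) ℂ),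
      (∀ q, ev (K := ℂ) (X 0 + C (p' q 0)) (X 1 + C (p' q 1)) (Θ' q) Φ ∈ (nn ℂ) ^ s) ∧
      (∀ q, aeval (p' q) g ≠ 0) ∧
      (∀ q, ev (K := ℂ) (p' q 0) (p' q 1) (constantCoeff (Θ' q)) Φ.derivative ≠ 0) ∧
      ∀ q (f : MvPolynomial (Fin 2) ℂ), ∃ G : BB ℂ, G ∈ S ∧
        ev (K := ℂ) (X 0 + C (p' q 0)) (X 1 + C (p' q 1)) (Θ' q) G - f ∈ (nn ℂ) ^ s ∧
        ∀ q', q' ≠ q →
          ev (K := ℂ) (X 0 + C (p' q' 0)) (X 1 + C (p' q' 1)) (Θ' q') G ∈ (nn ℂ) ^ s := by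
  classical
  have hx0 : ∀ q (i : Fin 2), MvPolynomial.map (ι : A →+* F) (X i + C (p0 q i)) =
      X i + C (ι (p0 q i)) := by
    intro q i; simp
  have hφ0 : ∀ q (i : Fin 2), MvPolynomial.map (φ : A →+* ℂ) (X i + C (p0 q i)) =
      X i + C (φ (p0 q i)) := by
    intro q i; simp
  have hι' : Function.Injective (ι : A →+* F) := hι
  -- transfer for `G`s
  have trans : ∀ q' q α, ∀ f0 : MvPolynomial (Fin 2) A,
      ev (K := F) (X 0 + C (ι (p0 q' 0))) (X 1 + C (ι (p0 q' 1)))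
        (MvPolynomial.map (ι : A →+* F) (Θ0 q'))
        (Polynomial.map (MvPolynomial.map (ι : A →+* F)) (G0 q α)) -
          MvPolynomial.map (ι : A →+* F) f0 ∈ (nn F) ^ s →
      ev (K := ℂ) (X 0 + C (φ (p0 q' 0))) (X 1 + C (φ (p0 q' 1)))
        (MvPolynomial.map (φ : A →+* ℂ) (Θ0 q'))
        (Polynomial.map (MvPolynomial.map (φ : A →+* ℂ)) (G0 q α)) -
          MvPolynomial.map (φ : A →+* ℂ) f0 ∈ (nn ℂ) ^ s := by
    intro q' q α f0 h
    rw [← hx0, ← hx0, ← ev_map, ← map_sub] at h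
    have := mem_transfer hι' (φ : A →+* ℂ) h
    rwa [map_sub, ev_map, hφ0, hφ0] at this
  refine ⟨fun q i => φ (p0 q i), fun q => MvPolynomial.map (φ : A →+* ℂ) (Θ0 q), ?_, ?_, ?_, ?_⟩
  · intro q
    have h := h1 q
    have e1 : MvPolynomial.map (ι : A →+* F)
        (ev (K := ℂ) (X 0 + C (p0 q 0)) (X 1 + C (p0 q 1)) (Θ0 q) Φ) =
        ev (K := ℂ) (MvPolynomial.map (ι : A →+* F) (X 0 + C (p0 q 0)))
          (MvPolynomial.map (ι : A →+* F) (X 1 + C (p0 q 1)))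
          (MvPolynomial.map (ι : A →+* F) (Θ0 q)) Φ :=
      ev_algHom (MvPolynomial.mapAlgHom (σ := Fin 2) ι)
        (X 0 + C (p0 q 0)) (X 1 + C (p0 q 1)) (Θ0 q) Φ
    rw [← hx0, ← hx0, ← e1] at h
    have h' := mem_transfer hι' (φ : A →+* ℂ) h
    have e3 : MvPolynomial.map (φ : A →+* ℂ)
        (ev (K := ℂ) (X 0 + C (p0 q 0)) (X 1 + C (p0 q 1)) (Θ0 q) Φ) =
        ev (K := ℂ) (MvPolynomial.map (φ : A →+* ℂ) (X 0 + C (p0 q 0)))
          (MvPolynomial.map (φ : A →+* ℂ) (X 1 + C (p0 q 1)))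
          (MvPolynomial.map (φ : A →+* ℂ) (Θ0 q)) Φ :=
      ev_algHom (MvPolynomial.mapAlgHom (σ := Fin 2) φ)
        (X 0 + C (p0 q 0)) (X 1 + C (p0 q 1)) (Θ0 q) Φ
    rwa [e3, hφ0, hφ0] at h'
  · intro q h
    obtain ⟨u, hu⟩ := h2 q
    have e1 : aeval (fun i => ι (p0 q i)) g = ι (aeval (p0 q) g) :=
      (map_aeval_aux ι (p0 q) g)
    have e2 : aeval (fun i => φ (p0 q i)) g = φ (aeval (p0 q) g) :=
      (map_aeval_aux φ (p0 q) g)
    rw [e1, ← map_mul] at hu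
    have hu' : u * aeval (p0 q) g = 1 := hι (by rw [hu, map_one])
    have := congrArg φ hu'
    rw [map_mul, ← e2, h, mul_zero, map_one] at this
    exact zero_ne_one this
  · intro q h
    obtain ⟨u, hu⟩ := h3 q
    have hc : ∀ {B : Type _} [CommRing B] [Algebra ℂ B] (ψ : A →ₐ[ℂ] B),
        ev (K := ℂ) (ψ (p0 q 0)) (ψ (p0 q 1))
        (constantCoeff (MvPolynomial.map (ψ : A →+* B) (Θ0 q))) Φ.derivative =
        ψ (ev (K := ℂ) (p0 q 0) (p0 q 1) (constantCoeff (Θ0 q)) Φ.derivative) := by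
      intro B _ _ ψ
      rw [ev_algHom, MvPolynomial.constantCoeff_map]; rfl
    rw [hc ι, ← map_mul] at hu
    have hu' : u * ev (K := ℂ) (p0 q 0) (p0 q 1) (constantCoeff (Θ0 q)) Φ.derivative = 1 :=
      hι (by rw [hu, map_one])
    have e2 : ev (K := ℂ) (φ (p0 q 0)) (φ (p0 q 1))
        (constantCoeff (MvPolynomial.map (φ : A →+* ℂ) (Θ0 q))) Φ.derivative =
        φ (ev (K := ℂ) (p0 q 0) (p0 q 1) (constantCoeff (Θ0 q)) Φ.derivative) := by
      rw [ev_algHom, MvPolynomial.constantCoeff_map]; rfl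
    have := congrArg φ hu'
    rw [map_mul, ← e2, h, mul_zero, map_one] at this
    exact zero_ne_one this
  · intro q f
    let Gf : BB ℂ := ∑ α ∈ D, Polynomial.C (C (f.coeff α)) *
      Polynomial.map (MvPolynomial.map (φ : A →+* ℂ)) (G0 q α)
    have hev : ∀ q', ev (K := ℂ) (X 0 + C (φ (p0 q' 0))) (X 1 + C (φ (p0 q' 1)))
          (MvPolynomial.map (φ : A →+* ℂ) (Θ0 q')) Gf =
          ∑ α ∈ D, C (f.coeff α) * ev (K := ℂ) (X 0 + C (φ (p0 q' 0))) (X 1 + C (φ (p0 q' 1)))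
          (MvPolynomial.map (φ : A →+* ℂ) (Θ0 q'))
          (Polynomial.map (MvPolynomial.map (φ : A →+* ℂ)) (G0 q α)) := by
      intro q'
      simp only [Gf, map_sum, map_mul]
      refine Finset.sum_congr rfl fun α _ => ?_
      congr 1
      simp [ev]
    refine ⟨Gf, ?_, ?_, ?_⟩
    · refine S.sum_mem fun α hα => ?_
      rw [← smul_eqA]
      exact S.smul_mem _ (span_map φ S (hGV q α hα))
    · rw [hev, MvPolynomial.mem_pow_idealOfVars_iff']
      intro β hβ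
      have hβD : β ∈ D := (hD β).mpr hβ
      rw [MvPolynomial.coeff_sub, MvPolynomial.coeff_sum]
      have key : ∀ α ∈ D, MvPolynomial.coeff β (C (f.coeff α) *
          ev (K := ℂ) (X 0 + C (φ (p0 q 0))) (X 1 + C (φ (p0 q 1)))
          (MvPolynomial.map (φ : A →+* ℂ) (Θ0 q))
          (Polynomial.map (MvPolynomial.map (φ : A →+* ℂ)) (G0 q α))) =
          if α = β then f.coeff β else 0 := by
        intro α hα
        have h5 := trans q q α (monomial α 1) (by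
          have := hGq q α hα
          rwa [MvPolynomial.map_monomial, map_one])
        rw [MvPolynomial.mem_pow_idealOfVars_iff'] at h5
        have h6 := h5 β hβ
        rw [MvPolynomial.coeff_sub, MvPolynomial.map_monomial, map_one,
          MvPolynomial.coeff_monomial, sub_eq_zero] at h6
        rw [MvPolynomial.coeff_C_mul, h6]
        split_ifs with h7
        · rw [h7, mul_one]
        · rw [mul_zero]
      rw [Finset.sum_congr rfl key, Finset.sum_ite_eq' D β, if_pos hβD, sub_self]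
    · intro q' hq'
      rw [hev]
      refine Ideal.sum_mem _ fun α hα => Ideal.mul_mem_left _ _ ?_
      have := trans q' q α 0 (by rw [map_zero, sub_zero]; exact hGq' q α hα q' hq')
      rwa [map_zero, sub_zero] at this

theorem descentS {F : Type} [Field F] [Algebra ℂ F] (Φ : BB ℂ) (g : AA ℂ) (n : ℕ)
    (S : Submodule ℂ (BB ℂ)) (s : ℕ)
    (p : Fin n → Fin 2 → F) (Θ : Fin n → MvPolynomial (Fin 2) F)
    (h1 : ∀ q, ev (K := ℂ) (X 0 + C (p q 0)) (X 1 + C (p q 1)) (Θ q) Φ ∈ (nn F) ^ s)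
    (h2 : ∀ q, aeval (p q) g ≠ 0)
    (h3 : ∀ q, ev (K := ℂ) (p q 0) (p q 1) (constantCoeff (Θ q)) Φ.derivative ≠ 0)
    (h4 : ∀ q (f : MvPolynomial (Fin 2) F), ∃ G : BB F,
      G ∈ Submodule.span F
        ((fun G : BB ℂ => G.map (MvPolynomial.map (algebraMap ℂ F))) '' (S : Set (BB ℂ))) ∧
      ev (K := F) (X 0 + C (p q 0)) (X 1 + C (p q 1)) (Θ q) G - f ∈ (nn F) ^ s ∧
      ∀ q', q' ≠ q → ev (K := F) (X 0 + C (p q' 0)) (X 1 + C (p q' 1)) (Θ q') G ∈ (nn F) ^ s) :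
    ∃ (p' : Fin n → Fin 2 → ℂ) (Θ' : Fin n → MvPolynomial (Fin 2) ℂ),
      (∀ q, ev (K := ℂ) (X 0 + C (p' q 0)) (X 1 + C (p' q 1)) (Θ' q) Φ ∈ (nn ℂ) ^ s) ∧
      (∀ q, aeval (p' q) g ≠ 0) ∧
      (∀ q, ev (K := ℂ) (p' q 0) (p' q 1) (constantCoeff (Θ' q)) Φ.derivative ≠ 0) ∧
      ∀ q (f : MvPolynomial (Fin 2) ℂ), ∃ G : BB ℂ, G ∈ S ∧
        ev (K := ℂ) (X 0 + C (p' q 0)) (X 1 + C (p' q 1)) (Θ' q) G - f ∈ (nn ℂ) ^ s ∧
        ∀ q', q' ≠ q →
          ev (K := ℂ) (X 0 + C (p' q' 0)) (X 1 + C (p' q' 1)) (Θ' q') G ∈ (nn ℂ) ^ s := by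
  classical
  -- the polynomials for the monomials
  have hG : ∀ (q : Fin n) (α : Fin 2 →₀ ℕ), ∃ (N : ℕ) (c : Fin N → F) (H : Fin N → BB ℂ),
      (∀ i, H i ∈ S) ∧
      ev (K := F) (X 0 + C (p q 0)) (X 1 + C (p q 1)) (Θ q)
        (∑ i, c i • (H i).map (MvPolynomial.map (algebraMap ℂ F))) - monomial α 1 ∈ (nn F) ^ s ∧
      ∀ q', q' ≠ q → ev (K := F) (X 0 + C (p q' 0)) (X 1 + C (p q' 1)) (Θ q')
        (∑ i, c i • (H i).map (MvPolynomial.map (algebraMap ℂ F))) ∈ (nn F) ^ s := by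
    intro q α
    obtain ⟨G, hG1, hG2, hG3⟩ := h4 q (monomial α 1)
    rw [Submodule.mem_span_set'] at hG1
    obtain ⟨N, c, y, hy⟩ := hG1
    choose H hH hH' using fun i => (y i).2
    have hsum : ∑ i, c i • (H i).map (MvPolynomial.map (algebraMap ℂ F)) = G := by
      rw [← hy]
      refine Finset.sum_congr rfl fun i _ => ?_
      rw [← hH' i]
    refine ⟨N, c, H, hH, ?_, ?_⟩
    · rw [hsum]; exact hG2
    · rw [hsum]; exact hG3
  choose N c H hHS hGq hGq' using hG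
  have hDfin : {α : Fin 2 →₀ ℕ | Finsupp.degree α < s}.Finite := Finsupp.finite_of_degree_lt s
  let D : Finset (Fin 2 →₀ ℕ) := hDfin.toFinset
  have hD : ∀ α, α ∈ D ↔ Finsupp.degree α < s := by intro α; simp [D]
  -- the finite set
  let T : Set F := (⋃ q : Fin n, ⋃ i : Fin 2, {p q i}) ∪
    (⋃ q : Fin n, ((Θ q).coeffs : Set F)) ∪
    (⋃ q : Fin n, {(aeval (p q) g)⁻¹,
      (ev (K := ℂ) (p q 0) (p q 1) (constantCoeff (Θ q)) Φ.derivative)⁻¹}) ∪
    (⋃ q : Fin n, ⋃ α ∈ D, Set.range (c q α))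
  have hTfin : T.Finite := by
    refine Set.Finite.union (Set.Finite.union (Set.Finite.union ?_ ?_) ?_) ?_
    · exact Set.finite_iUnion fun q => Set.finite_iUnion fun i => Set.finite_singleton _
    · exact Set.finite_iUnion fun q => Finset.finite_toSet _
    · exact Set.finite_iUnion fun q => Set.toFinite _
    · refine Set.finite_iUnion fun q => Set.Finite.biUnion (Finset.finite_toSet D) ?_
      intro α _
      exact Set.finite_range _
  obtain ⟨R0, φ, hTR⟩ := exists_point T hTfin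
  have hpR : ∀ q i, p q i ∈ R0 := by
    intro q i
    apply hTR
    refine Or.inl (Or.inl (Or.inl ?_))
    simp only [Set.mem_iUnion, Set.mem_singleton_iff]
    exact ⟨q, i, rfl⟩
  have hΘR : ∀ q, ((Θ q).coeffs : Set F) ⊆ R0 := by
    intro q x hx
    apply hTR
    refine Or.inl (Or.inl (Or.inr ?_))
    simp only [Set.mem_iUnion]
    exact ⟨q, hx⟩
  have hi1 : ∀ q, (aeval (p q) g)⁻¹ ∈ R0 := by
    intro q
    apply hTR
    refine Or.inl (Or.inr ?_)
    simp only [Set.mem_iUnion]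
    exact ⟨q, by simp⟩
  have hi2 : ∀ q, (ev (K := ℂ) (p q 0) (p q 1) (constantCoeff (Θ q)) Φ.derivative)⁻¹ ∈ R0 := by
    intro q
    apply hTR
    refine Or.inl (Or.inr ?_)
    simp only [Set.mem_iUnion]
    exact ⟨q, by simp⟩
  have hcR : ∀ q, ∀ α ∈ D, ∀ i, c q α i ∈ R0 := by
    intro q α hα i
    apply hTR
    refine Or.inr ?_
    simp only [Set.mem_iUnion]
    exact ⟨q, α, hα, i, rfl⟩
  -- lifts
  let p0 : Fin n → Fin 2 → R0 := fun q i => ⟨p q i, hpR q i⟩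
  have hp0 : ∀ q i, R0.val (p0 q i) = p q i := fun q i => rfl
  have hΘ0 : ∀ q, ∃ P0 : MvPolynomial (Fin 2) R0,
      MvPolynomial.map (R0.val : R0 →+* F) P0 = Θ q :=
    fun q => lift_mv R0 _ (hΘR q)
  choose Θ0 hΘ0 using hΘ0
  have hG0 : ∀ q α, ∃ G0 : BB R0, α ∈ D →
      (Polynomial.map (MvPolynomial.map (R0.val : R0 →+* F)) G0 =
        ∑ i, c q α i • (H q α i).map (MvPolynomial.map (algebraMap ℂ F))) ∧
      G0 ∈ Submodule.span R0
        ((fun G : BB ℂ => G.map (MvPolynomial.map (algebraMap ℂ R0))) '' (S : Set (BB ℂ))) := by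
    intro q α
    by_cases hα : α ∈ D
    · refine ⟨∑ i, (⟨c q α i, hcR q α hα i⟩ : R0) •
        (H q α i).map (MvPolynomial.map (algebraMap ℂ R0)), fun _ => ⟨?_, ?_⟩⟩
      · rw [Polynomial.map_sum]
        refine Finset.sum_congr rfl fun i _ => ?_
        rw [smul_eqA, smul_eqA, Polynomial.map_mul, Polynomial.map_C, MvPolynomial.map_C,
          Polynomial.map_map]
        congr 2
        refine MvPolynomial.ringHom_ext (fun c => ?_) fun i => ?_
        · simp only [RingHom.comp_apply, MvPolynomial.map_C]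
          rfl
        · simp only [RingHom.comp_apply, MvPolynomial.map_X]
      · exact Submodule.sum_mem _ fun i _ => Submodule.smul_mem _ _
          (Submodule.subset_span ⟨_, hHS q α i, rfl⟩)
    · exact ⟨0, fun h => absurd h hα⟩
  choose G0 hG0 using hG0
  refine descent_auxS R0.val Subtype.val_injective φ Φ g n S s p0 Θ0 ?_ ?_ ?_ D hD G0
    ?_ ?_ ?_
  · intro q
    rw [hΘ0]
    exact h1 q
  · intro q
    refine ⟨⟨_, hi1 q⟩, ?_⟩
    exact inv_mul_cancel₀ (h2 q)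
  · intro q
    refine ⟨⟨_, hi2 q⟩, ?_⟩
    rw [hΘ0]
    exact inv_mul_cancel₀ (h3 q)
  · intro q α hα
    exact (hG0 q α hα).2
  · intro q α hα
    rw [(hG0 q α hα).1, hΘ0]
    exact hGq q α
  · intro q α hα q' hq'
    rw [(hG0 q α hα).1, hΘ0]
    exact hGq' q α q' hq'

end Pool.Agent.TH493.NEF
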