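import Pool.Agent.TH493.NEF.CoreS
import Pool.Agent.TH493.NEF.DescS
import Pool.Agent.W607.General

/-!
Separation of jets by a filtered function field at points of a hypersurface model (after
`Pool.Agent.TH880.NB.AsmT`).
-/

set_option autoImplicit false

namespace Pool.Agent.TH493.NEF

open MvPolynomial Pool.Agent.W607 Module

section

variable {FF : Type*} [Field FF] [Algebra ℂ FF] {Φ : BB ℂ} {a b th : FF} {g : AA ℂ}
  {F : ℕ → Submodule ℂ FF}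

/-- `Md` as a subspace. -/
def MdS (F : ℕ → Submodule ℂ FF) (a b th : FF) (g : AA ℂ) (m k : ℕ) : Submodule ℂ (BB ℂ) where
  carrier := Md F a b th g m k
  add_mem' := by
    rintro x y ⟨ψ, hψ, hx⟩ ⟨ψ', hψ', hy⟩
    exact ⟨ψ + ψ', (F m).add_mem hψ hψ', by rw [map_add, mul_add, hx, hy]⟩
  zero_mem' := ⟨0, (F m).zero_mem, by rw [mul_zero, map_zero]⟩
  smul_mem' := by
    rintro c x ⟨ψ, hψ, hx⟩
    refine ⟨c • ψ, (F m).smul_mem _ hψ, ?_⟩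
    rw [smul_eqA, map_mul, ← hx, ev_eq_evh, evh_C, Algebra.smul_def]
    ring

/-- **Separation of jets on a hypersurface model.** -/
theorem coreCS (hm : Φ.Monic) (hirr : Irreducible Φ)
    (hker : ∀ G, ev (K := ℂ) a b th G = 0 ↔ Φ ∣ G) (hg : g ≠ 0) (n : ℕ) {r : ℕ} (hr : 1 ≤ r)
    (htor : ∀ ε : ℝ, 0 < ε → Pool.Agent.TH880.NB.Tor r n ε)
    (hP : ∀ a0 b0 : ℂ, aeval ![a0, b0] g ≠ 0 →
      Pencil F (a - algebraMap ℂ FF a0) (b - algebraMap ℂ FF b0))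
    (hden : ∀ m, ∃ k, ∀ ψ ∈ F m, ∃ G : BB ℂ,
      ev (K := ℂ) a b th (Polynomial.C g) ^ k * ψ = ev (K := ℂ) a b th G)
    (hgr : ∀ η : ℝ, 0 < η → ∃ M0 : ℕ, ∀ m : ℕ, M0 ≤ m →
      (r - η) * (m : ℝ) ^ 2 ≤ 2 * (finrank ℂ (F m) : ℝ)) (ε : ℝ) (hε : 0 < ε) :
    ∃ E s k : ℕ, 2 ≤ s ∧ (E : ℝ) * √r ≤ (1 + ε) * (√n * ((s : ℝ) - 1)) ∧
      ∃ p : Fin n → Fin 3 → ℂ, (∀ q, ev (K := ℂ) (p q 0) (p q 1) (p q 2) Φ = 0) ∧
        (∀ q, aeval ![p q 0, p q 1] g ≠ 0) ∧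
        ∀ q (f : BB ℂ), ∃ G ∈ Md F a b th g E k,
          G - f ∈ Ideal.span {Φ} ⊔ (mp (p q)) ^ s ∧
          ∀ q', q' ≠ q → G ∈ Ideal.span {Φ} ⊔ (mp (p q')) ^ s := by
  obtain ⟨a0, b0, θ0, h0, h1, hg0⟩ := Pool.Agent.W31.T8.base_point Φ hm hirr g hg
  obtain ⟨E, s, k, hs, hnum, F', _, _, p, Θ, H1, H2, H3, H4⟩ :=
    coreFS hm hirr hker n hr htor a0 b0 θ0 h0 h1 hg0 (hP a0 b0 hg0) hden hgr ε hε
  obtain ⟨p', Θ', H1', H2', H3', H4'⟩ := descentS Φ g n (MdS F a b th g E k) s p Θ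
    H1 H2 H3 H4
  refine ⟨E, s, k, hs, hnum, fun q => ![p' q 0, p' q 1, constantCoeff (Θ' q)], fun q => ?_,
    fun q => ?_, fun q f => ?_⟩
  · have h2 := H1' q
    have h3 : constantCoeff (ev (K := ℂ) (X 0 + C (p' q 0)) (X 1 + C (p' q 1)) (Θ' q) Φ) =
        0 := by
      rw [mem_pow_idealOfVars_iff'] at h2
      rw [constantCoeff_eq]
      exact h2 0 (by rw [map_zero]; omega)
    rw [ev_eq_evh, evh_comp_apply] at h3
    rw [ev_eq_evh, ← h3]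
    simp only [map_add, constantCoeff_X, constantCoeff_C, zero_add]
    congr 2
    ext a
    simp
  · have h2 := H2' q
    convert h2 using 3
    ext i
    fin_cases i <;> rfl
  · obtain ⟨G, hG, hG1, hG2⟩ := H4' q
      (ev (K := ℂ) (X 0 + C (p' q 0)) (X 1 + C (p' q 1)) (Θ' q) f)
    refine ⟨G, hG, ?_, fun q' hq' => ?_⟩
    · refine Pool.Agent.W522.Jets.jets Φ s (p' q) (Θ' q) (H1' q) (H3' q) (G - f) ?_
      rw [map_sub]
      exact hG1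
    · exact Pool.Agent.W522.Jets.jets Φ s (p' q') (Θ' q') (H1' q') (H3' q') G (hG2 q' hq')

end

end Pool.Agent.TH493.NEF
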