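import Pool.Agent.TH493.NEF.Line

/-!
All small orders are attained along the transcendental line.
-/

set_option autoImplicit false

namespace Pool.Agent.TH493.NEF

open MvPolynomial Pool.Agent.W607 Module

theorem exists_step (f : ℕ → ℕ) (r η : ℝ) (hη : 0 < η)
    (hgr : ∀ η : ℝ, 0 < η → ∃ M0 : ℕ, ∀ m : ℕ, M0 ≤ m → (r - η) * (m : ℝ) ^ 2 ≤ 2 * f m) :
    ∃ m : ℕ, (r - η) * ((m : ℝ) + 1) + 1 ≤ ((f (m + 1) - f m : ℕ) : ℝ) := by
  by_contra hcon
  push Not at hcon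
  have h1 : ∀ M : ℕ, (f M : ℝ) ≤ f 0 + (r - η) * (M * (M + 1)) / 2 + M := by
    intro M
    induction M with
    | zero => simp
    | succ M ih =>
      have h2 := hcon M
      have h3 : (f (M + 1) : ℝ) ≤ f M + ((f (M + 1) - f M : ℕ) : ℝ) := by
        have : f (M + 1) ≤ f M + (f (M + 1) - f M) := by omega
        exact_mod_cast this
      push_cast
      nlinarith
  obtain ⟨M0, hM0⟩ := hgr (η / 2) (by positivity)
  obtain ⟨M, hM⟩ := exists_nat_gt (max (M0 : ℝ) (max 1 ((2 * (2 * f 0 + |r - η| + 2)) / η)))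
  have hM1 : (M0 : ℝ) < M := lt_of_le_of_lt (le_max_left _ _) hM
  have hM2 : (1 : ℝ) < M := lt_of_le_of_lt ((le_max_left _ _).trans (le_max_right _ _)) hM
  have hM3 : (2 * (2 * f 0 + |r - η| + 2)) / η < M :=
    lt_of_le_of_lt ((le_max_right _ _).trans (le_max_right _ _)) hM
  have h2 := hM0 M (by exact_mod_cast hM1.le)
  have h3 := h1 M
  rw [div_lt_iff₀ hη] at hM3
  have h4 : (r - η) * M ≤ |r - η| * M :=
    mul_le_mul_of_nonneg_right (le_abs_self _) (by linarith)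
  have h5 : (η / 2) * (M : ℝ) ^ 2 ≤ (2 * f 0 + |r - η| + 2) * M := by
    have h6 : (2 * (f 0 : ℝ)) ≤ 2 * f 0 * M := by
      have : (0 : ℝ) ≤ 2 * f 0 := by positivity
      nlinarith
    nlinarith
  have h6 : (2 * f 0 + |r - η| + 2) * (M : ℝ) < (η / 2) * (M : ℝ) ^ 2 := by
    have : (2 * f 0 + |r - η| + 2) < (η / 2) * (M : ℝ) := by linarith
    calc (2 * f 0 + |r - η| + 2) * (M : ℝ) < ((η / 2) * (M : ℝ)) * M :=
          mul_lt_mul_of_pos_right this (by linarith)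
      _ = _ := by ring
  linarith

variable {FF : Type*} [Field FF] [Algebra ℂ FF]
  {Φ : BB ℂ} {a b th : FF} {g : AA ℂ} {a0 b0 : ℂ} {θ : PowerSeries K1}
  {F : ℕ → Submodule ℂ FF}

theorem rows (h : Model Φ a b th g a0 b0 θ)
    (hP : Pencil F (a - algebraMap ℂ FF a0) (b - algebraMap ℂ FF b0))
    (hden : ∀ m, ∃ k, ∀ ψ ∈ F m, ∃ G : BB ℂ,
      ev (K := ℂ) a b th (Polynomial.C g) ^ k * ψ = ev (K := ℂ) a b th G)
    (hβ : b - algebraMap ℂ FF b0 ∈ F 1) (r : ℝ)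
    (hgr : ∀ η : ℝ, 0 < η → ∃ M0 : ℕ, ∀ m : ℕ, M0 ≤ m →
      (r - η) * (m : ℝ) ^ 2 ≤ 2 * (finrank ℂ (F m) : ℝ))
    (η : ℝ) (hη : 0 < η) (hηr : η < r) :
    ∃ c : ℕ, ∀ m i : ℕ, (i : ℝ) + c ≤ (r - η) * m →
      ∃ u : PowerSeries K1, PowerSeries.constantCoeff u ≠ 0 ∧
        PowerSeries.X ^ i * u ∈ PP F a b th g a0 b0 θ m := by
  obtain ⟨m, hm⟩ := exists_step (fun m => finrank ℂ (F m)) r η hη hgr
  have hrη : 0 < r - η := by linarith
  have hD : 1 ≤ finrank ℂ (F (m + 1)) - finrank ℂ (F m) := by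
    have : (1 : ℝ) ≤ ((finrank ℂ (F (m + 1)) - finrank ℂ (F m) : ℕ) : ℝ) := by
      refine le_trans ?_ hm
      have : 0 ≤ (r - η) * ((m : ℝ) + 1) := by positivity
      linarith
    exact_mod_cast this
  obtain ⟨k, hk⟩ := hden (m + 1)
  obtain ⟨n, u, hn, hu, hmem⟩ := exists_order h hP hk hD
  have hn1 : (r - η) * ((m : ℝ) + 1) ≤ n := by
    have : ((finrank ℂ (F (m + 1)) - finrank ℂ (F m) : ℕ) : ℝ) ≤ n + 1 := by exact_mod_cast hn
    linarith
  have hn0 : 0 < n := by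
    have : (0 : ℝ) < n := lt_of_lt_of_le (by positivity) hn1
    exact_mod_cast this
  refine ⟨⌈(r - η) * n⌉₊, fun m' i hi => ⟨u ^ (i / n), ?_, ?_⟩⟩
  · rw [map_pow]
    exact pow_ne_zero _ hu
  · have h1 : PowerSeries.X ^ i * u ^ (i / n) =
        (PowerSeries.X ^ n * u) ^ (i / n) * PowerSeries.X ^ (i % n) := by
      conv_lhs => rw [← Nat.div_add_mod i n]
      rw [mul_pow, ← pow_mul, pow_add]
      have : n * (n * (i / n) + i % n) / n = i := by
        rw [Nat.div_add_mod, Nat.mul_div_cancel_left _ hn0]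
      rw [Nat.div_add_mod]
      ring
    rw [h1]
    have hX : (PowerSeries.X : PowerSeries K1) ∈ PP F a b th g a0 b0 θ 1 :=
      Submodule.subset_span ⟨_, hβ, JR.beta⟩
    have h2 := PP_mul hP (PP_pow hP hmem (i / n)) (PP_pow hP hX (i % n))
    refine PP_mono hP ?_ h2
    have h3 : (r - η) * (((m + 1) * (i / n) + 1 * (i % n) : ℕ) : ℝ) ≤ (r - η) * (m' : ℝ) := by
      refine le_trans ?_ hi
      have e1 : (r - η) * ((m : ℝ) + 1) * ((i / n : ℕ) : ℝ) ≤ n * ((i / n : ℕ) : ℝ) :=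
        mul_le_mul_of_nonneg_right hn1 (Nat.cast_nonneg _)
      have e2 : (n : ℝ) * ((i / n : ℕ) : ℝ) ≤ i := by
        have := Nat.mul_div_le i n
        exact_mod_cast this
      have e3 : (r - η) * ((i % n : ℕ) : ℝ) ≤ ⌈(r - η) * n⌉₊ := by
        refine le_trans ?_ (Nat.le_ceil _)
        refine mul_le_mul_of_nonneg_left ?_ hrη.le
        exact_mod_cast (Nat.mod_lt i hn0).le
      push_cast
      nlinarith
    have h4 := le_of_mul_le_mul_left h3 hrη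
    exact_mod_cast h4

end Pool.Agent.TH493.NEF
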