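import Pool.Agent.TH493.NEF.GoodS
import Pool.Agent.TH493.NEF.Rows
import Pool.Agent.TH880.NB.Tor

/-!
Separation of jets by a filtered function field, over a field of power series (after
`Pool.Agent.TH880.NB.CoreT`).
-/

set_option autoImplicit false

namespace Pool.Agent.TH493.NEF

open MvPolynomial Pool.Agent.H932R5 Pool.Agent.W607 Module

/-- The polynomials which represent `g^k` times the elements of `F m`. -/
def Md {FF : Type*} [Field FF] [Algebra ℂ FF] (F : ℕ → Submodule ℂ FF) (a b th : FF) (g : AA ℂ)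
    (m k : ℕ) : Set (BB ℂ) :=
  {G | ∃ ψ ∈ F m, ev (K := ℂ) a b th (Polynomial.C g) ^ k * ψ = ev (K := ℂ) a b th G}

section

variable {FF : Type*} [Field FF] [Algebra ℂ FF] {Φ : BB ℂ} {a b th : FF} {g : AA ℂ}
  {F : ℕ → Submodule ℂ FF}

/-- multiplication by the line -/
theorem Ext.lf_mul {K : Type*} [Field K] (ι : ℂ →+* K) (l : K) (a0 b0 : ℂ)
    (hP : Pencil F (a - algebraMap ℂ FF a0) (b - algebraMap ℂ FF b0)) {m k : ℕ} {G : BB K}
    (hG : G ∈ Ext ι (Md F a b th g m k)) :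
    Polynomial.C (lf ι a0 b0 l) * G ∈ Ext ι (Md F a b th g (m + 1) k) := by
  unfold Ext at hG
  induction hG using Submodule.span_induction with
  | mem x hx =>
    obtain ⟨G, ⟨ψ, hψ, hG⟩, rfl⟩ := hx
    have h1 : Polynomial.C (X 0 - C a0) * G ∈ Md F a b th g (m + 1) k := by
      refine ⟨(a - algebraMap ℂ FF a0) * ψ, ?_, ?_⟩
      · rw [add_comm m 1]; exact hP.mul hP.hα hψ
      · rw [map_mul, ← hG, map_sub, map_sub, ev_eq_evh, evh_a, evh_C]
        ring
    have h2 : Polynomial.C (X 1 - C b0) * G ∈ Md F a b th g (m + 1) k := by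
      refine ⟨(b - algebraMap ℂ FF b0) * ψ, ?_, ?_⟩
      · rw [add_comm m 1]; exact hP.mul hP.hβ hψ
      · rw [map_mul, ← hG, map_sub, map_sub, ev_eq_evh, evh_b, evh_C]
        ring
    have h3 : Polynomial.C (lf ι a0 b0 l) * G.map (MvPolynomial.map ι) =
        (Polynomial.C (X 0 - C a0) * G).map (MvPolynomial.map ι) -
          l • (Polynomial.C (X 1 - C b0) * G).map (MvPolynomial.map ι) := by
      rw [smul_eq, Polynomial.map_mul, Polynomial.map_mul, Polynomial.map_C, Polynomial.map_C, lf]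
      simp only [map_sub, map_mul, MvPolynomial.map_X, MvPolynomial.map_C]
      ring
    show Polynomial.C (lf ι a0 b0 l) * G.map (MvPolynomial.map ι) ∈ _
    rw [h3]
    exact Submodule.sub_mem _ (Submodule.subset_span ⟨_, h1, rfl⟩)
      (Submodule.smul_mem _ _ (Submodule.subset_span ⟨_, h2, rfl⟩))
  | zero => rw [mul_zero]; exact Submodule.zero_mem _
  | add x y _ _ hx hy => rw [mul_add]; exact Submodule.add_mem _ hx hy
  | smul c x _ hx => rw [mul_smul_comm]; exact Submodule.smul_mem _ _ hx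

theorem Ext.lf_pow_mul {K : Type*} [Field K] (ι : ℂ →+* K) (l : K) (a0 b0 : ℂ)
    (hP : Pencil F (a - algebraMap ℂ FF a0) (b - algebraMap ℂ FF b0)) {m k : ℕ} {G : BB K}
    (hG : G ∈ Ext ι (Md F a b th g m k)) (e : ℕ) :
    Polynomial.C (lf ι a0 b0 l ^ e) * G ∈ Ext ι (Md F a b th g (m + e) k) := by
  induction e with
  | zero => simpa using hG
  | succ e ih =>
    have h1 : Polynomial.C (lf ι a0 b0 l ^ (e + 1)) * G =
        Polynomial.C (lf ι a0 b0 l) * (Polynomial.C (lf ι a0 b0 l ^ e) * G) := by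
      rw [pow_succ', map_mul]
      ring
    rw [h1, ← add_assoc]
    exact Ext.lf_mul ι l a0 b0 hP ih

theorem Md_mono {α β : FF} (hP : Pencil F α β) {m m' k : ℕ} (h : m ≤ m') :
    Md F a b th g m k ⊆ Md F a b th g m' k := fun _ ⟨ψ, hψ, hG⟩ => ⟨ψ, hP.mono h hψ, hG⟩

/-- **Separation of jets over a field extension.** -/
theorem coreFS (hm : Φ.Monic) (hirr : Irreducible Φ)
    (hker : ∀ G, ev (K := ℂ) a b th G = 0 ↔ Φ ∣ G) (n : ℕ) {r : ℕ} (hr : 1 ≤ r)
    (htor : ∀ ε : ℝ, 0 < ε → Pool.Agent.TH880.NB.Tor r n ε) (a0 b0 θ0 : ℂ)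
    (h0 : ev (K := ℂ) a0 b0 θ0 Φ = 0) (h1 : ev (K := ℂ) a0 b0 θ0 Φ.derivative ≠ 0)
    (hg : aeval ![a0, b0] g ≠ 0)
    (hP : Pencil F (a - algebraMap ℂ FF a0) (b - algebraMap ℂ FF b0))
    (hden : ∀ m, ∃ k, ∀ ψ ∈ F m, ∃ G : BB ℂ,
      ev (K := ℂ) a b th (Polynomial.C g) ^ k * ψ = ev (K := ℂ) a b th G)
    (hgr : ∀ η : ℝ, 0 < η → ∃ M0 : ℕ, ∀ m : ℕ, M0 ≤ m →
      (r - η) * (m : ℝ) ^ 2 ≤ 2 * (finrank ℂ (F m) : ℝ)) (ε : ℝ) (hε : 0 < ε) :
    ∃ E s k : ℕ, 2 ≤ s ∧ (E : ℝ) * √r ≤ (1 + ε) * (√n * ((s : ℝ) - 1)) ∧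
      ∃ (F' : Type) (_ : Field F') (_ : Algebra ℂ F') (p : Fin n → Fin 2 → F')
        (Θ : Fin n → MvPolynomial (Fin 2) F'),
        (∀ q, ev (K := ℂ) (X 0 + C (p q 0)) (X 1 + C (p q 1)) (Θ q) Φ ∈ (nn F') ^ s) ∧
        (∀ q, aeval (p q) g ≠ 0) ∧
        (∀ q, ev (K := ℂ) (p q 0) (p q 1) (constantCoeff (Θ q)) Φ.derivative ≠ 0) ∧
        ∀ q (f : MvPolynomial (Fin 2) F'), ∃ G : BB F',
          G ∈ Ext (algebraMap ℂ F') (Md F a b th g E k) ∧
          ev (K := F') (X 0 + C (p q 0)) (X 1 + C (p q 1)) (Θ q) G - f ∈ (nn F') ^ s ∧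
          ∀ q', q' ≠ q →
            ev (K := F') (X 0 + C (p q' 0)) (X 1 + C (p q' 1)) (Θ q') G ∈ (nn F') ^ s := by
  classical
  have hrR : (0 : ℝ) < r := by exact_mod_cast hr
  let ι : ℂ →+* K1 := algebraMap ℂ K1
  -- the root on the line
  obtain ⟨θ, hroot, hθ⟩ := exists_root (P := K1) ι Φ a0 b0 θ0 hm h0 h1
    (α := al ι a0 lam) (β := be ι b0) (by simp [al]) (by simp [be])
  have hM : Model Φ a b th g a0 b0 θ := by
    refine ⟨hm, hirr, hker, hroot, ?_⟩
    have h2 := constantCoeff_evh ι (Polynomial.C g) a0 b0 θ0 (α := al ι a0 lam)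
      (β := be ι b0) (by simp [al]) (by simp [be]) hθ
    rw [eps, h2]
    have h3 : ev (K := ℂ) a0 b0 θ0 (Polynomial.C g) = aeval ![a0, b0] g := by
      simp [ev]
    rw [h3]
    intro h4
    exact hg ((map_eq_zero ι).1 h4)
  -- the losses
  obtain ⟨κ, hκ0, hκ⟩ : ∃ κ : ℝ, 0 < κ ∧ (1 + κ) * (1 + κ) ≤ 1 + ε :=
    ⟨min 1 (ε / 3), by positivity, by
      have h1 : min 1 (ε / 3) ≤ 1 := min_le_left _ _
      have h2 : min 1 (ε / 3) ≤ ε / 3 := min_le_right _ _
      have h3 : 0 < min 1 (ε / 3) := by positivity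
      nlinarith⟩
  obtain ⟨η, hη0, hηr, hηκ⟩ : ∃ η : ℝ, 0 < η ∧ η < r ∧ (r : ℝ) ≤ (1 + κ) * (r - η) := by
    refine ⟨r * κ / (1 + κ), by positivity, ?_, ?_⟩
    · rw [div_lt_iff₀ (by positivity)]
      nlinarith
    · have : (1 + κ) * (r - r * κ / (1 + κ)) = r := by field_simp; ring
      rw [this]
  have hrη : 0 < (r : ℝ) - η := by linarith
  obtain ⟨c5, hc5⟩ := rows hM hP hden hP.hβ r hgr η hη0 hηr
  obtain ⟨E', s, hs, hnum, u, hu⟩ := htor κ hκ0 (max c5 1)
  obtain ⟨E, hE⟩ : ∃ E : ℕ, E = ⌈(r : ℝ) * E' / (r - η)⌉₊ := ⟨_, rfl⟩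
  have hE1 : (r : ℝ) * E' ≤ (r - η) * E := by
    have : (r : ℝ) * E' / (r - η) ≤ E := by rw [hE]; exact Nat.le_ceil _
    rw [div_le_iff₀ hrη] at this
    linarith
  have hE2 : (E : ℝ) ≤ (r : ℝ) * E' / (r - η) + 1 := by
    rw [hE]
    exact (Nat.ceil_lt_add_one (by positivity)).le
  have hE'E : E' ≤ E := by
    have h2 : (r : ℝ) * E' ≤ r * E := hE1.trans (by nlinarith [Nat.cast_nonneg (α := ℝ) E])
    have h3 := le_of_mul_le_mul_left h2 hrR
    exact_mod_cast h3
  obtain ⟨k, hk⟩ := hden E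
  refine ⟨E, s, k, hs, ?_, ?_⟩
  · have hc1 : (1 : ℝ) ≤ ((max c5 1 : ℕ) : ℝ) := by exact_mod_cast le_max_right c5 1
    have h2 : (E : ℝ) ≤ (1 + κ) * ((E' : ℝ) + ((max c5 1 : ℕ) : ℝ)) := by
      have h3 : (r : ℝ) * E' / (r - η) ≤ (1 + κ) * E' := by
        rw [div_le_iff₀ hrη]
        nlinarith [Nat.cast_nonneg (α := ℝ) E']
      nlinarith
    have hsr : 0 ≤ √(r : ℝ) := Real.sqrt_nonneg _
    have hns : 0 ≤ √(n : ℝ) * ((s : ℝ) - 1) := by
      have : (2 : ℝ) ≤ s := by exact_mod_cast hs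
      have h4 : 0 ≤ (s : ℝ) - 1 := by linarith
      positivity
    calc (E : ℝ) * √r ≤ ((1 + κ) * ((E' : ℝ) + ((max c5 1 : ℕ) : ℝ))) * √r :=
          mul_le_mul_of_nonneg_right h2 hsr
      _ = (1 + κ) * (((E' : ℝ) + ((max c5 1 : ℕ) : ℝ)) * √r) := by ring
      _ ≤ (1 + κ) * ((1 + κ) * (√n * ((s : ℝ) - 1))) :=
          mul_le_mul_of_nonneg_left hnum (by linarith)
      _ = ((1 + κ) * (1 + κ)) * (√n * ((s : ℝ) - 1)) := by ring
      _ ≤ (1 + ε) * (√n * ((s : ℝ) - 1)) := mul_le_mul_of_nonneg_right hκ hns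
  -- the root in the family
  obtain ⟨W, hW⟩ : ∃ W, W = r * E' + 1 := ⟨_, rfl⟩
  have hW1 : 1 ≤ W := by omega
  obtain ⟨Θ, hΘ, hΘ0, hΘθ⟩ := exists_Theta ι a0 b0 lam W Φ hm θ0 h0 h1 hW1 θ hroot hθ
  let F' := FractionRing (PowerSeries K1)
  let φ : PowerSeries K1 →+* F' := algebraMap _ _
  have hφinj : Function.Injective φ := IsFractionRing.injective (PowerSeries K1) F'
  have hφ0 : ∀ x, φ x = 0 → x = 0 := fun x hx => hφinj (by rw [hx, map_zero])
  have hφX : φ PowerSeries.X ≠ 0 := fun h => PowerSeries.X_ne_zero (hφ0 _ h)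
  let alg : Algebra ℂ F' := (φ.comp ((PowerSeries.C).comp ι)).toAlgebra
  -- surjectivity
  have hspan : ∀ P ∈ Submodule.span K1 {P : MvPolynomial (Fin 2) K1 |
      ∃ i e : ℕ, i + r * e + max c5 1 ≤ r * E' ∧ P = X 0 ^ i * X 1 ^ e},
      ∃ h : RR K1, GoodS φ lam W s ι a0 b0 Θ (Md F a b th g E k) u h ∧
        PowerSeries.constantCoeff h = P := by
    intro P hP'
    induction hP' using Submodule.span_induction with
    | mem x hx =>
      obtain ⟨i, e, hie, rfl⟩ := hx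
      have he : e ≤ E' := by
        have : r * e ≤ r * E' := by omega
        exact Nat.le_of_mul_le_mul_left this hr
      have he' : e ≤ E := he.trans hE'E
      have h2 : (i : ℝ) + c5 ≤ (r - η) * ((E - e : ℕ) : ℝ) := by
        have h3 : i + r * e + c5 ≤ r * E' := by
          have := le_max_left c5 1
          omega
        have h4 : (i : ℝ) + r * e + c5 ≤ r * E' := by exact_mod_cast h3
        rw [Nat.cast_sub he']
        nlinarith [Nat.cast_nonneg (α := ℝ) e]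
      obtain ⟨v, hv, hvP⟩ := hc5 (E - e) i h2
      obtain ⟨G, hG, hGv⟩ := PP_repr hM (k := k) (fun ψ hψ => hk ψ (hP.mono (Nat.sub_le E e) hψ))
        hvP
      -- normalise
      set v' : PowerSeries K1 := eps a0 b0 θ (Polynomial.C g) ^ k * v with hv'
      have hv0 : PowerSeries.constantCoeff v' ≠ 0 := by
        rw [hv', map_mul, map_pow]
        exact mul_ne_zero (pow_ne_zero _ hM.g0) hv
      have hGv' : evh PowerSeries.C (al ι a0 lam) (be ι b0) θ
          (Polynomial.C (C (PowerSeries.constantCoeff v')⁻¹) * G) = PowerSeries.X ^ i *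
            (PowerSeries.C (PowerSeries.constantCoeff v')⁻¹ * v') := by
        rw [map_mul, evh_C]
        have : evh PowerSeries.C (al ι a0 lam) (be ι b0) θ G = PowerSeries.X ^ i * v' := by
          rw [hv']
          rw [show evh PowerSeries.C (al ι a0 lam) (be ι b0) θ G =
            eps a0 b0 θ (Polynomial.C g) ^ k * (PowerSeries.X ^ i * v) from hGv]
          ring
        rw [this]
        ring
      obtain ⟨h, hh0, hh⟩ := leading ι a0 b0 lam W Θ θ hΘθ _ i e (by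
        rw [hW]
        omega) _ (by rw [map_mul, PowerSeries.constantCoeff_C, inv_mul_cancel₀ hv0]) hGv'
      refine ⟨h, goodS_of_leading hφX _ ?_ _ h hh, hh0⟩
      have h5 := Ext.lf_pow_mul ι lam a0 b0 hP (Ext.C_mul hG
        (PowerSeries.constantCoeff v')⁻¹) e
      rwa [Nat.sub_add_cancel he'] at h5
    | zero => exact ⟨0, GoodS.zero, map_zero _⟩
    | add x y _ _ hx hy =>
      obtain ⟨h, hh, rfl⟩ := hx
      obtain ⟨h', hh', rfl⟩ := hy
      exact ⟨h + h', hh.add hh', map_add _ _ _⟩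
    | smul a x _ hx =>
      obtain ⟨h, hh, rfl⟩ := hx
      refine ⟨dd (PowerSeries.C a) * h, hh.dd_mul _, ?_⟩
      rw [map_mul, dd_C, constantCoeff_cK, smul_eq_C_mul]
  have hsurj : ∀ f : Fin n → MvPolynomial (Fin 2) K1, ∃ h : RR K1,
      GoodS φ lam W s ι a0 b0 Θ (Md F a b th g E k) u h ∧
      ∀ q, sh (u q) (PowerSeries.constantCoeff h) - f q ∈ (nn K1) ^ s := by
    intro f
    obtain ⟨G, hG, hG'⟩ := hu f
    obtain ⟨h, hh, hh'⟩ := hspan G hG
    refine ⟨h, hh, fun q => ?_⟩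
    rw [hh']
    exact hG' q
  let p : Fin n → Fin 2 → F' := fun q => ![φ (pA lam W ι a0 (u q)), φ (pB ι b0 (u q))]
  -- the truncated root
  let Θ' : Fin n → MvPolynomial (Fin 2) F' := fun q =>
    chg (φ PowerSeries.X) (φ (PowerSeries.C lam)) W
      (MvPowerSeries.truncTotal s ((MvPowerSeries.map φ) (jt (u q) Θ)))
  have hΘ' : ∀ q, Ideal.Quotient.mk ((nn F') ^ s) (Θ' q) = La φ lam W s (u q) Θ := by
    intro q
    rw [La_of_coeff φ lam W s (u q) Θ
      (MvPowerSeries.truncTotal s ((MvPowerSeries.map φ) (jt (u q) Θ)))]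
    intro β hβ
    rw [MvPowerSeries.coeff_truncTotal _ hβ, MvPowerSeries.coeff_map]
  have hmkF : ∀ q (G : BB F'), Ideal.Quotient.mk ((nn F') ^ s)
      (ev (K := F') (X 0 + C (p q 0)) (X 1 + C (p q 1)) (Θ' q) G) =
      eF φ lam W s ι a0 b0 Θ u q G := by
    intro q G
    rw [ev_eq_evh, evh_comp_apply, hΘ', eF]
    rfl
  have hmkC : ∀ q (G : BB ℂ), Ideal.Quotient.mk ((nn F') ^ s)
      (ev (K := ℂ) (X 0 + C (p q 0)) (X 1 + C (p q 1)) (Θ' q) G) =
      La φ lam W s (u q) (evh (cK.comp ι) (Al ι a0 lam W) (Be ι b0) Θ G) := by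
    intro q G
    rw [ev_eq_evh, evh_comp_apply, hΘ', evh_comp_apply, La_Al φ lam W s ι a0 hφX,
      La_Be φ lam W s ι b0 hφX]
    congr 2
    ext a : 1
    show Ideal.Quotient.mk _ (C (φ (PowerSeries.C (ι a)))) = La φ lam W s (u q) (cK (ι a))
    rw [La_cK]
  have hcA : ∀ q, PowerSeries.constantCoeff (pA lam W ι a0 (u q)) = ι a0 := by
    intro q
    simp [pA, zero_pow (show W ≠ 0 by omega)]
  have hcB : ∀ q, PowerSeries.constantCoeff (pB ι b0 (u q)) = ι b0 := by
    intro q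
    simp [pB]
  refine ⟨F', inferInstance, alg, p, Θ', ?_, ?_, ?_, ?_⟩
  · intro q
    rw [← Ideal.Quotient.eq_zero_iff_mem, hmkC, hΘ, map_zero]
  · intro q h
    have h2 : (aeval (p q) g : F') = φ (MvPolynomial.eval₂Hom ((PowerSeries.C).comp ι)
        ![pA lam W ι a0 (u q), pB ι b0 (u q)] g) := by
      have h3 : ((aeval (p q) : AA ℂ →ₐ[ℂ] F') : AA ℂ →+* F') =
          φ.comp (MvPolynomial.eval₂Hom ((PowerSeries.C).comp ι)
            ![pA lam W ι a0 (u q), pB ι b0 (u q)]) := by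
        refine MvPolynomial.ringHom_ext (fun a => ?_) fun i => ?_
        · rw [RingHom.comp_apply, eval₂Hom_C]
          exact aeval_C _ _
        · rw [RingHom.comp_apply, eval₂Hom_X']
          refine (aeval_X _ _).trans ?_
          fin_cases i <;> rfl
      exact congrArg (fun f : AA ℂ →+* F' => f g) h3
    rw [h2] at h
    have h4 := hφ0 _ h
    have h5 := congrArg PowerSeries.constantCoeff h4
    rw [map_zero] at h5
    have h6 : PowerSeries.constantCoeff (MvPolynomial.eval₂Hom ((PowerSeries.C).comp ι)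
        ![pA lam W ι a0 (u q), pB ι b0 (u q)] g) = ι (aeval ![a0, b0] g) := by
      have h7 : (PowerSeries.constantCoeff (R := K1)).comp
          (MvPolynomial.eval₂Hom ((PowerSeries.C).comp ι)
            ![pA lam W ι a0 (u q), pB ι b0 (u q)]) =
          ι.comp ((aeval ![a0, b0] : AA ℂ →ₐ[ℂ] ℂ) : AA ℂ →+* ℂ) := by
        refine MvPolynomial.ringHom_ext (fun a => ?_) fun i => ?_
        · simp
        · fin_cases i
          · simp [hcA q]
          · simp [hcB q]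
      exact congrArg (fun f : AA ℂ →+* K1 => f g) h7
    rw [h6, map_eq_zero] at h5
    exact hg h5
  · intro q h
    have hc : constantCoeff (Θ' q) = φ (MvPowerSeries.coeff 0 (jt (u q) Θ)) := by
      have h2 : ∀ P : MvPolynomial (Fin 2) F',
          constantCoeff (chg (φ PowerSeries.X) (φ (PowerSeries.C lam)) W P) =
            constantCoeff P := by
        intro P
        have h3 : (constantCoeff : MvPolynomial (Fin 2) F' →+* F').comp
            (chg (φ PowerSeries.X) (φ (PowerSeries.C lam)) W :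
              MvPolynomial (Fin 2) F' →+* MvPolynomial (Fin 2) F') = constantCoeff := by
          refine MvPolynomial.ringHom_ext (fun a => ?_) fun i => ?_
          · show constantCoeff (chg (φ PowerSeries.X) (φ (PowerSeries.C lam)) W (C a)) = _
            rw [show chg (φ PowerSeries.X) (φ (PowerSeries.C lam)) W (C a) = C a from
              (chg (φ PowerSeries.X) (φ (PowerSeries.C lam)) W).commutes a]
          · fin_cases i <;> simp [chg]
        exact congrArg (fun f : MvPolynomial (Fin 2) F' →+* F' => f P) h3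
      rw [h2, constantCoeff_eq, MvPowerSeries.coeff_truncTotal _ (by
        rw [map_zero]
        omega), MvPowerSeries.coeff_map]
    have hc0 : PowerSeries.constantCoeff (MvPowerSeries.coeff 0 (jt (u q) Θ)) = ι θ0 := by
      rw [constantCoeff_jt, hΘ0]
      show coeff 0 (sh (u q) (C (ι θ0))) = ι θ0
      rw [show sh (u q) (C (ι θ0)) = C (ι θ0) from (sh (u q)).commutes _, coeff_C, if_pos rfl]
    have h2 : (ev (K := ℂ) (p q 0) (p q 1) (constantCoeff (Θ' q)) Φ.derivative : F') =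
        φ (evh ((PowerSeries.C).comp ι) (pA lam W ι a0 (u q)) (pB ι b0 (u q))
          (MvPowerSeries.coeff 0 (jt (u q) Θ)) Φ.derivative) := by
      rw [ev_eq_evh, evh_comp_apply, hc]
      rfl
    rw [h2] at h
    have h4 := hφ0 _ h
    have h5 := congrArg PowerSeries.constantCoeff h4
    rw [constantCoeff_evh ι Φ.derivative a0 b0 θ0 (hcA q) (hcB q) hc0, map_zero,
      map_eq_zero] at h5
    exact h1 h5
  · intro q f
    obtain ⟨G, hG, hG1, hG2⟩ := separationS (φ := φ) (l := lam) (W := W) (s := s) (ι := ι)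
      (a0 := a0) (b0 := b0) (Θ := Θ) (S := Md F a b th g E k) (u := u) hφX hsurj q f
    refine ⟨G, hG, ?_, fun q' hq' => ?_⟩
    · rw [← Ideal.Quotient.mk_eq_mk_iff_sub_mem, hmkF, hG1]
    · rw [← Ideal.Quotient.eq_zero_iff_mem, hmkF, hG2 q' hq']

end

end Pool.Agent.TH493.NEF
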