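import Pool.Agent.W607.Core

/-!
Separation of jets over a field of power series, for an arbitrary space of polynomials
(after `Pool.Agent.W607.Core`).
-/

set_option autoImplicit false

namespace Pool.Agent.TH493.NEF

open MvPolynomial Pool.Agent.H932R5 Pool.Agent.W607

/-- Base change of a space of polynomials. -/
noncomputable def Ext {K : Type*} [Field K] (ι : ℂ →+* K) (S : Set (BB ℂ)) :
    Submodule K (BB K) :=
  Submodule.span K ((fun G : BB ℂ => G.map (MvPolynomial.map ι)) '' S)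

section Ext

variable {K : Type*} [Field K] {ι : ℂ →+* K} {S : Set (BB ℂ)}

theorem smul_eq (c : K) (G : BB K) : c • G = Polynomial.C (C c) * G := by
  rw [← Polynomial.smul_eq_C_mul, ← MvPolynomial.algebraMap_eq, algebraMap_smul]

theorem Ext.C_mul {G : BB K} (hG : G ∈ Ext ι S) (c : K) :
    Polynomial.C (C c) * G ∈ Ext ι S := by
  rw [← smul_eq]
  exact Submodule.smul_mem _ _ hG

theorem Ext.map {K' : Type*} [Field K'] (j : K →+* K') {G : BB K} (hG : G ∈ Ext ι S) :
    G.map (MvPolynomial.map j) ∈ Ext (j.comp ι) S := by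
  unfold Ext at hG
  induction hG using Submodule.span_induction with
  | mem x hx =>
    obtain ⟨G, hG, rfl⟩ := hx
    refine Submodule.subset_span ⟨G, hG, ?_⟩
    show G.map _ = (G.map _).map _
    rw [Polynomial.map_map]
    congr 1
    refine MvPolynomial.ringHom_ext (fun c => ?_) fun i => ?_ <;> simp
  | zero => rw [Polynomial.map_zero]; exact Submodule.zero_mem _
  | add x y _ _ hx hy => rw [Polynomial.map_add]; exact Submodule.add_mem _ hx hy
  | smul c x _ hx =>
    rw [smul_eq, Polynomial.map_mul, Polynomial.map_C, MvPolynomial.map_C]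
    exact Ext.C_mul hx _

end Ext

section Good

variable {K F : Type*} [Field K] [Field F] (φ : PowerSeries K →+* F) (l : K) (W s : ℕ)
  (ι : ℂ →+* K) (a0 b0 : ℂ) (Θ : RR K) (S : Set (BB ℂ)) {n : ℕ} (u : Fin n → Fin 2 → K)

/-- Power series which are the jets of elements of the space. -/
def GoodS (h : RR K) : Prop :=
  ∃ G : BB F, G ∈ Ext ((φ.comp PowerSeries.C).comp ι) S ∧
    ∀ q, eF φ l W s ι a0 b0 Θ u q G = La φ l W s (u q) h

variable {φ l W s ι a0 b0 Θ S u}

theorem GoodS.zero : GoodS φ l W s ι a0 b0 Θ S u 0 :=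
  ⟨0, Submodule.zero_mem _, fun q => by rw [map_zero, map_zero]⟩

theorem GoodS.add {h h' : RR K} (H : GoodS φ l W s ι a0 b0 Θ S u h)
    (H' : GoodS φ l W s ι a0 b0 Θ S u h') : GoodS φ l W s ι a0 b0 Θ S u (h + h') := by
  obtain ⟨G, hG, hG'⟩ := H
  obtain ⟨G1, hG1, hG1'⟩ := H'
  exact ⟨G + G1, Submodule.add_mem _ hG hG1, fun q => by rw [map_add, map_add, hG', hG1']⟩

theorem GoodS.dd_mul {h : RR K} (H : GoodS φ l W s ι a0 b0 Θ S u h) (d : PowerSeries K) :
    GoodS φ l W s ι a0 b0 Θ S u (dd d * h) := by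
  obtain ⟨G, hG, hG'⟩ := H
  refine ⟨Polynomial.C (C (φ d)) * G, Ext.C_mul hG _, fun q => ?_⟩
  rw [map_mul, map_mul, hG', eF, evh_C, La_dd]
  rfl

theorem GoodS.sum {α : Type*} (T : Finset α) (h : α → RR K)
    (H : ∀ i ∈ T, GoodS φ l W s ι a0 b0 Θ S u (h i)) :
    GoodS φ l W s ι a0 b0 Θ S u (∑ i ∈ T, h i) := by
  classical
  induction T using Finset.induction_on with
  | empty => simpa using GoodS.zero
  | insert a T ha ih =>
    rw [Finset.sum_insert ha]
    exact (H a (Finset.mem_insert_self a T)).add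
      (ih fun i hi => H i (Finset.mem_insert_of_mem hi))

/-- Elements with prescribed leading term are good. -/
theorem goodS_of_leading (hφ : φ PowerSeries.X ≠ 0) (G : BB K) (hG : G ∈ Ext ι S) (N : ℕ)
    (h : RR K) (hh : evh cK (Al ι a0 l W) (Be ι b0) Θ G = PowerSeries.X ^ N * h) :
    GoodS φ l W s ι a0 b0 Θ S u h := by
  refine ⟨Polynomial.C (C (φ PowerSeries.X ^ N)⁻¹) *
    G.map (MvPolynomial.map (φ.comp PowerSeries.C)),
    Ext.C_mul (Ext.map (φ.comp PowerSeries.C) hG) _, fun q => ?_⟩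
  rw [map_mul, eF_map hφ, hh, eF, evh_C, map_mul, map_pow, La_t, ← mul_assoc]
  have : ((Ideal.Quotient.mk (nn F ^ s)).comp C) (φ PowerSeries.X ^ N)⁻¹ *
      (Ideal.Quotient.mk (nn F ^ s)) (C (φ PowerSeries.X)) ^ N = 1 := by
    show Ideal.Quotient.mk (nn F ^ s) (C (φ PowerSeries.X ^ N)⁻¹) *
      (Ideal.Quotient.mk (nn F ^ s) (C (φ PowerSeries.X))) ^ N = 1
    rw [← map_pow (Ideal.Quotient.mk (nn F ^ s)), ← map_mul, ← C_pow, ← C_mul,
      inv_mul_cancel₀ (pow_ne_zero _ hφ), C_1, map_one]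
  rw [this, one_mul]

/-- Correction of the leading terms: from jets modulo `t` to exact jets. -/
theorem exact_jetsS
    (hsurj : ∀ f : Fin n → MvPolynomial (Fin 2) K, ∃ h : RR K,
      GoodS φ l W s ι a0 b0 Θ S u h ∧
      ∀ q, sh (u q) (PowerSeries.constantCoeff h) - f q ∈ (nn K) ^ s) :
    ∀ j : Jx n s, ∃ h : RR K, GoodS φ l W s ι a0 b0 Θ S u h ∧
      ∀ j' : Jx n s, MvPowerSeries.coeff j'.2.1 (jt (u j'.1) h) = if j' = j then 1 else 0 := by
  classical
  choose hf hgood hcoef using hsurj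
  let f0 : Jx n s → Fin n → MvPolynomial (Fin 2) K := fun j q =>
    if q = j.1 then monomial j.2.1 1 else 0
  let M : Matrix (Jx n s) (Jx n s) (PowerSeries K) := fun j' j =>
    MvPowerSeries.coeff j'.2.1 (jt (u j'.1) (hf (f0 j)))
  have hM : (PowerSeries.constantCoeff (R := K)).mapMatrix M = 1 := by
    ext j' j
    show PowerSeries.constantCoeff (MvPowerSeries.coeff j'.2.1 (jt (u j'.1) (hf (f0 j)))) = _
    rw [constantCoeff_jt, Matrix.one_apply]
    have h1 := hcoef (f0 j) j'.1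
    rw [mem_pow_idealOfVars_iff'] at h1
    have h2 := h1 j'.2.1 (mem_dg.1 j'.2.2)
    rw [coeff_sub, sub_eq_zero] at h2
    rw [h2]
    simp only [f0]
    by_cases h3 : j' = j
    · rw [if_pos h3, h3, if_pos rfl, coeff_monomial, if_pos rfl]
    · rw [if_neg h3]
      by_cases h4 : j'.1 = j.1
      · rw [if_pos h4, coeff_monomial, if_neg]
        intro h5
        exact h3 (Prod.ext h4 (Subtype.ext h5.symm))
      · rw [if_neg h4, coeff_zero]
  have hdet : IsUnit M.det := by
    rw [PowerSeries.isUnit_iff_constantCoeff, RingHom.map_det, hM, Matrix.det_one]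
    exact isUnit_one
  have hMN : M * M⁻¹ = 1 := Matrix.mul_nonsing_inv M hdet
  intro j
  refine ⟨∑ j'', dd (M⁻¹ j'' j) * hf (f0 j''), GoodS.sum _ _ fun i _ => (hgood _).dd_mul _,
    fun j' => ?_⟩
  rw [map_sum, map_sum]
  have h1 : ∀ j'', MvPowerSeries.coeff j'.2.1 (jt (u j'.1) (dd (M⁻¹ j'' j) * hf (f0 j''))) =
      M j' j'' * M⁻¹ j'' j := by
    intro j''
    rw [map_mul, jt_dd, MvPowerSeries.coeff_C_mul, mul_comm]
  simp only [h1]
  rw [← Matrix.mul_apply, hMN, Matrix.one_apply]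

/-- Separation of jets over `F`. -/
theorem separationS (hφ : φ PowerSeries.X ≠ 0)
    (hsurj : ∀ f : Fin n → MvPolynomial (Fin 2) K, ∃ h : RR K,
      GoodS φ l W s ι a0 b0 Θ S u h ∧
      ∀ q, sh (u q) (PowerSeries.constantCoeff h) - f q ∈ (nn K) ^ s)
    (q0 : Fin n) (f : MvPolynomial (Fin 2) F) :
    ∃ G : BB F, G ∈ Ext ((φ.comp PowerSeries.C).comp ι) S ∧
      eF φ l W s ι a0 b0 Θ u q0 G = Ideal.Quotient.mk _ f ∧
      ∀ q, q ≠ q0 → eF φ l W s ι a0 b0 Θ u q G = 0 := by
  classical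
  choose h hgood hcoef using exact_jetsS hsurj
  choose G hG hG' using hgood
  let τ := φ PowerSeries.X
  let l' := φ (PowerSeries.C l)
  let f' := chg' τ l' W f
  have hLa : ∀ (q : Fin n) (α : {α : Fin (1 + 1) →₀ ℕ // α ∈ dg 1 s}),
      La φ l W s (u q) (h (q0, α)) = if q = q0 then
        Ideal.Quotient.mk _ (chg τ l' W (monomial α.1 1)) else 0 := by
    intro q α
    rw [La_of_coeff φ l W s (u q) (h (q0, α)) (if q = q0 then monomial α.1 1 else 0)]
    · split_ifs
      · rfl
      · rw [map_zero, map_zero]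
    · intro β hβ
      have h1 := hcoef (q0, α) (q, ⟨β, mem_dg.2 hβ⟩)
      simp only at h1
      rw [h1]
      by_cases h2 : q = q0
      · rw [if_pos h2, coeff_monomial, h2]
        by_cases h3 : α.1 = β
        · rw [if_pos h3, if_pos, map_one]
          exact Prod.ext rfl (Subtype.ext h3.symm)
        · rw [if_neg h3, if_neg, map_zero]
          intro h4
          rw [Prod.mk.injEq] at h4
          exact h3 (congrArg Subtype.val h4.2).symm
      · rw [if_neg h2, if_neg, map_zero, coeff_zero]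
        intro h4
        rw [Prod.mk.injEq] at h4
        exact h2 h4.1
  refine ⟨∑ α : {α : Fin (1 + 1) →₀ ℕ // α ∈ dg 1 s},
    Polynomial.C (C (coeff α.1 f')) * G (q0, α),
    Submodule.sum_mem _ fun α _ => Ext.C_mul (hG _) _, ?_, ?_⟩
  · rw [map_sum]
    have h1 : ∀ α : {α : Fin (1 + 1) →₀ ℕ // α ∈ dg 1 s},
        eF φ l W s ι a0 b0 Θ u q0 (Polynomial.C (C (coeff α.1 f')) * G (q0, α)) =
        Ideal.Quotient.mk _ (chg τ l' W (C (coeff α.1 f') * monomial α.1 1)) := by
      intro α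
      rw [map_mul, hG', hLa, if_pos rfl, eF, evh_C, map_mul, map_mul]
      congr 1
      rw [RingHom.comp_apply]
      congr 1
      exact ((chg τ l' W).commutes _).symm
    simp only [h1]
    rw [← map_sum, ← map_sum, Ideal.Quotient.mk_eq_mk_iff_sub_mem]
    have h2 : f = chg τ l' W f' := (chg_chg' hφ l' W f).symm
    have h3 : (∑ α : {α : Fin (1 + 1) →₀ ℕ // α ∈ dg 1 s},
        C (coeff α.1 f') * monomial α.1 1) - f' ∈ (nn F) ^ s := by
      rw [mem_pow_idealOfVars_iff']
      intro β hβ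
      rw [coeff_sub, coeff_sum, sub_eq_zero,
        Finset.sum_eq_single (⟨β, mem_dg.2 hβ⟩ : {α : Fin (1 + 1) →₀ ℕ // α ∈ dg 1 s})]
      · rw [coeff_C_mul, coeff_monomial, if_pos rfl, mul_one]
      · intro α _ hα
        rw [coeff_C_mul, coeff_monomial, if_neg, mul_zero]
        intro h4
        exact hα (Subtype.ext h4)
      · intro h4
        exact absurd (Finset.mem_univ _) h4
    have h4 := chg_le τ l' W s h3
    have h5 : chg τ l' W ((∑ α : {α : Fin (1 + 1) →₀ ℕ // α ∈ dg 1 s},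
        C (coeff α.1 f') * monomial α.1 1) - f') ∈ (nn F) ^ s := h4
    rw [map_sub, ← h2] at h5
    exact h5
  · intro q hq
    rw [map_sum]
    refine Finset.sum_eq_zero fun α _ => ?_
    rw [map_mul, hG', hLa, if_neg hq, mul_zero]

end Good

end Pool.Agent.TH493.NEF
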