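import Pool.Agent.TH493.NEF.Rel
import Pool.Agent.W607.Line
import Pool.Agent.W494.LineIndep

/-!
Expansion of the elements of a filtered function field along the transcendental line.
-/

set_option autoImplicit false

namespace Pool.Agent.TH493.NEF

open MvPolynomial Pool.Agent.W607 Module

/-- Expansion along the line. -/
noncomputable def eps (a0 b0 : ℂ) (θ : PowerSeries K1) : BB ℂ →+* PowerSeries K1 :=
  evh ((PowerSeries.C).comp (algebraMap ℂ K1)) (al (algebraMap ℂ K1) a0 lam)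
    (be (algebraMap ℂ K1) b0) θ

theorem phi_eq (a0 b0 : ℂ) : (Pool.Agent.W494.phi a0 b0 : AA ℂ →+* PowerSeries K1) =
    MvPolynomial.eval₂Hom ((PowerSeries.C).comp (algebraMap ℂ K1))
      ![al (algebraMap ℂ K1) a0 lam, be (algebraMap ℂ K1) b0] := by
  refine MvPolynomial.ringHom_ext (fun c => ?_) fun i => ?_
  · rw [eval₂Hom_C]
    show Pool.Agent.W494.phi a0 b0 (C c) = _
    rw [← MvPolynomial.algebraMap_eq, (Pool.Agent.W494.phi a0 b0).commutes]
    exact PowerSeries.algebraMap_apply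
  · rw [eval₂Hom_X']
    show Pool.Agent.W494.phi a0 b0 (X i) = _
    rw [Pool.Agent.W494.phi, aeval_X]
    fin_cases i
    · show algebraMap ℂ (PowerSeries K1) a0 + _ = al _ _ _
      rw [al, PowerSeries.algebraMap_apply]
    · show algebraMap ℂ (PowerSeries K1) b0 + _ = be _ _
      rw [be, PowerSeries.algebraMap_apply]

theorem eps_eq (a0 b0 : ℂ) (θ : PowerSeries K1) (G : BB ℂ) :
    eps a0 b0 θ G =
      Polynomial.eval₂ (Pool.Agent.W494.phi a0 b0 : AA ℂ →+* PowerSeries K1) θ G := by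
  rw [phi_eq]
  rfl

theorem eps_C (a0 b0 : ℂ) (θ : PowerSeries K1) (P : AA ℂ) :
    eps a0 b0 θ (Polynomial.C P) = Pool.Agent.W494.phi a0 b0 P := by
  rw [eps_eq, Polynomial.eval₂_C]
  rfl

theorem eps_ker (Φ : BB ℂ) (hm : Φ.Monic) (hirr : Irreducible Φ) (a0 b0 : ℂ)
    (θ : PowerSeries K1) (hroot : eps a0 b0 θ Φ = 0) (G : BB ℂ) (hG : eps a0 b0 θ G = 0) :
    Φ ∣ G := by
  let L := FractionRing (PowerSeries K1)
  let ι : PowerSeries K1 →+* L := algebraMap (PowerSeries K1) L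
  have hι : Function.Injective ι := IsFractionRing.injective (PowerSeries K1) L
  let f : AA ℂ →+* L := ι.comp (Pool.Agent.W494.phi a0 b0 : AA ℂ →+* PowerSeries K1)
  have hf : Function.Injective f := hι.comp (Pool.Agent.W494.phi_injective a0 b0)
  have hev : ∀ H : BB ℂ, Polynomial.eval₂ f (ι θ) H = ι (eps a0 b0 θ H) := by
    intro H
    rw [eps_eq, Polynomial.hom_eval₂]
  have h0 : Polynomial.eval₂ f (ι θ) Φ = 0 := by rw [hev, hroot, map_zero]
  have h1 : Polynomial.eval₂ f (ι θ) (G %ₘ Φ) = 0 := by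
    rw [hev]
    have h2 : eps a0 b0 θ (G %ₘ Φ + Φ * (G /ₘ Φ)) = 0 := by
      rw [Polynomial.modByMonic_add_div]
      exact hG
    rw [map_add, map_mul, hroot, zero_mul, add_zero] at h2
    rw [h2, map_zero]
  rw [← Polynomial.modByMonic_eq_zero_iff_dvd hm]
  have hne : Φ ≠ 1 := fun h => hirr.not_isUnit (by rw [h]; exact isUnit_one)
  have hdeg : (G %ₘ Φ).natDegree < Φ.natDegree := Polynomial.natDegree_modByMonic_lt G hm hne
  rw [Polynomial.eval₂_eq_sum_range' f hdeg, Finset.sum_range] at h1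
  have h2 := Pool.Agent.W494.pow_indep f hf (ι θ) Φ hm hirr h0
    (fun k => f ((G %ₘ Φ).coeff k)) (fun k => ⟨algebraMap _ _ ((G %ₘ Φ).coeff k),
      IsFractionRing.lift_algebraMap hf _⟩) h1
  ext1 i
  rw [Polynomial.coeff_zero]
  by_cases hi : i < Φ.natDegree
  · exact hf (by rw [map_zero]; exact h2 ⟨i, hi⟩)
  · exact Polynomial.coeff_eq_zero_of_natDegree_lt (by omega)

section Data

variable {FF : Type*} [Field FF] [Algebra ℂ FF]

/-- The model of a function field over the plane, and a point of the plane. -/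
structure Model (Φ : BB ℂ) (a b th : FF) (g : AA ℂ) (a0 b0 : ℂ) (θ : PowerSeries K1) :
    Prop where
  monic : Φ.Monic
  irr : Irreducible Φ
  ker : ∀ G, ev (K := ℂ) a b th G = 0 ↔ Φ ∣ G
  root : eps a0 b0 θ Φ = 0
  g0 : PowerSeries.constantCoeff (eps a0 b0 θ (Polynomial.C g)) ≠ 0

/-- `f` is the expansion of `ψ`. -/
def JR (a b th : FF) (g : AA ℂ) (a0 b0 : ℂ) (θ : PowerSeries K1) (ψ : FF)
    (f : PowerSeries K1) : Prop :=
  ∃ (k : ℕ) (G : BB ℂ), ev (K := ℂ) a b th (Polynomial.C g) ^ k * ψ = ev (K := ℂ) a b th G ∧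
    eps a0 b0 θ (Polynomial.C g) ^ k * f = eps a0 b0 θ G

variable {Φ : BB ℂ} {a b th : FF} {g : AA ℂ} {a0 b0 : ℂ} {θ : PowerSeries K1}
  (h : Model Φ a b th g a0 b0 θ)

include h

theorem Model.g_ne : ev (K := ℂ) a b th (Polynomial.C g) ≠ 0 := by
  intro h0
  obtain ⟨Q, hQ⟩ := (h.ker _).1 h0
  apply h.g0
  rw [hQ, map_mul, h.root, zero_mul, map_zero]

theorem Model.eps_congr {G G' : BB ℂ} (hG : ev (K := ℂ) a b th G = ev (K := ℂ) a b th G') :
    eps a0 b0 θ G = eps a0 b0 θ G' := by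
  have h1 : ev (K := ℂ) a b th (G - G') = 0 := by rw [map_sub, hG, sub_self]
  obtain ⟨Q, hQ⟩ := (h.ker _).1 h1
  have h2 : eps a0 b0 θ (G - G') = 0 := by rw [hQ, map_mul, h.root, zero_mul]
  rw [map_sub] at h2
  exact sub_eq_zero.1 h2

theorem Model.eps_ne (k : ℕ) : eps a0 b0 θ (Polynomial.C g) ^ k ≠ 0 := by
  refine pow_ne_zero _ fun h0 => h.g0 ?_
  rw [h0, map_zero]

theorem JR.eq {ψ : FF} {f : PowerSeries K1} (hf : JR a b th g a0 b0 θ ψ f) {k : ℕ} {G : BB ℂ}
    (hG : ev (K := ℂ) a b th (Polynomial.C g) ^ k * ψ = ev (K := ℂ) a b th G) :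
    eps a0 b0 θ (Polynomial.C g) ^ k * f = eps a0 b0 θ G := by
  obtain ⟨k', G', h1, h2⟩ := hf
  have h3 : eps a0 b0 θ (Polynomial.C g ^ k' * G) = eps a0 b0 θ (Polynomial.C g ^ k * G') := by
    apply h.eps_congr
    rw [map_mul, map_mul, ← hG, ← h1, map_pow, map_pow]
    ring
  rw [map_mul, map_mul, ← h2, map_pow, map_pow] at h3
  refine mul_left_cancel₀ (h.eps_ne k') ?_
  rw [h3]
  ring

theorem JR.exists {ψ : FF} {k : ℕ} {G : BB ℂ}
    (hG : ev (K := ℂ) a b th (Polynomial.C g) ^ k * ψ = ev (K := ℂ) a b th G) :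
    ∃ f, JR a b th g a0 b0 θ ψ f := by
  have h1 : IsUnit (eps a0 b0 θ (Polynomial.C g) ^ k) := by
    refine IsUnit.pow _ ?_
    rw [PowerSeries.isUnit_iff_constantCoeff]
    exact isUnit_iff_ne_zero.2 h.g0
  obtain ⟨v, hv⟩ := h1.exists_left_inv
  refine ⟨v * eps a0 b0 θ G, k, G, hG, ?_⟩
  rw [← mul_assoc, mul_comm _ v, hv, one_mul]

omit h in
theorem JR.mul {ψ ψ' : FF} {f f' : PowerSeries K1} (hf : JR a b th g a0 b0 θ ψ f)
    (hf' : JR a b th g a0 b0 θ ψ' f') : JR a b th g a0 b0 θ (ψ * ψ') (f * f') := by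
  obtain ⟨k, G, h1, h2⟩ := hf
  obtain ⟨k', G', h1', h2'⟩ := hf'
  refine ⟨k + k', G * G', ?_, ?_⟩
  · rw [map_mul, ← h1, ← h1', pow_add]
    ring
  · rw [map_mul, ← h2, ← h2', pow_add]
    ring

omit h in
theorem JR.one : JR a b th g a0 b0 θ (1 : FF) 1 := ⟨0, 1, by simp, by simp⟩

omit h in
theorem JR.beta : JR a b th g a0 b0 θ (b - algebraMap ℂ FF b0) PowerSeries.X := by
  refine ⟨0, Polynomial.C (X 1 - C b0), ?_, ?_⟩
  · rw [ev_eq_evh, map_sub, map_sub, evh_b, evh_C, pow_zero, one_mul]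
  · rw [eps, map_sub, map_sub, evh_b, evh_C, pow_zero, one_mul, be]
    simp

variable (F : ℕ → Submodule ℂ FF)

omit h in
/-- The expansions of the elements of `F m`, with coefficients in `K1`. -/
noncomputable def PP (F : ℕ → Submodule ℂ FF) (a b th : FF) (g : AA ℂ) (a0 b0 : ℂ) (θ : PowerSeries K1)
    (m : ℕ) : Submodule K1 (PowerSeries K1) :=
  Submodule.span K1 {f | ∃ ψ ∈ F m, JR a b th g a0 b0 θ ψ f}

variable {F}

omit h in
theorem PP_mul {α β : FF} (hP : Pencil F α β) {i j : ℕ} {f f' : PowerSeries K1}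
    (hf : f ∈ PP F a b th g a0 b0 θ i) (hf' : f' ∈ PP F a b th g a0 b0 θ j) :
    f * f' ∈ PP F a b th g a0 b0 θ (i + j) := by
  have h1 := Submodule.mul_mem_mul hf hf'
  rw [PP, PP, Submodule.span_mul_span] at h1
  refine Submodule.span_mono ?_ h1
  rintro _ ⟨x, ⟨ψ, hψ, hx⟩, y, ⟨ψ', hψ', hy⟩, rfl⟩
  exact ⟨ψ * ψ', hP.mul hψ hψ', hx.mul hy⟩

omit h in
theorem PP_mono {α β : FF} (hP : Pencil F α β) {i j : ℕ} (hij : i ≤ j) :
    PP F a b th g a0 b0 θ i ≤ PP F a b th g a0 b0 θ j := by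
  refine Submodule.span_mono ?_
  rintro f ⟨ψ, hψ, hf⟩
  exact ⟨ψ, hP.mono hij hψ, hf⟩

omit h in
theorem PP_pow {α β : FF} (hP : Pencil F α β) {i : ℕ} {f : PowerSeries K1}
    (hf : f ∈ PP F a b th g a0 b0 θ i) (n : ℕ) :
    f ^ n ∈ PP F a b th g a0 b0 θ (i * n) := by
  induction n with
  | zero =>
    rw [pow_zero, mul_zero]
    exact Submodule.subset_span ⟨1, hP.one0, JR.one⟩
  | succ n ih =>
    rw [pow_succ, mul_add, mul_one]
    exact PP_mul hP ih hf

/-- the elements of `PP` come from polynomials -/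
theorem PP_repr {m k : ℕ} (hden : ∀ ψ ∈ F m, ∃ G : BB ℂ,
      ev (K := ℂ) a b th (Polynomial.C g) ^ k * ψ = ev (K := ℂ) a b th G)
    {f : PowerSeries K1} (hf : f ∈ PP F a b th g a0 b0 θ m) :
    ∃ G ∈ Submodule.span K1 ((fun G : BB ℂ => G.map (MvPolynomial.map (algebraMap ℂ K1))) ''
        {G | ∃ ψ ∈ F m, ev (K := ℂ) a b th (Polynomial.C g) ^ k * ψ = ev (K := ℂ) a b th G}),
      evh PowerSeries.C (al (algebraMap ℂ K1) a0 lam) (be (algebraMap ℂ K1) b0) θ G =
        eps a0 b0 θ (Polynomial.C g) ^ k * f := by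
  unfold PP at hf
  induction hf using Submodule.span_induction with
  | mem x hx =>
    obtain ⟨ψ, hψ, hx⟩ := hx
    obtain ⟨G, hG⟩ := hden ψ hψ
    refine ⟨_, Submodule.subset_span ⟨G, ⟨ψ, hψ, hG⟩, rfl⟩, ?_⟩
    rw [evh_map, JR.eq h hx hG]
    rfl
  | zero => exact ⟨0, Submodule.zero_mem _, by rw [map_zero, mul_zero]⟩
  | add x y _ _ hx hy =>
    obtain ⟨G, hG, hG'⟩ := hx
    obtain ⟨G1, hG1, hG1'⟩ := hy
    exact ⟨G + G1, Submodule.add_mem _ hG hG1, by rw [map_add, hG', hG1', mul_add]⟩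
  | smul c x _ hx =>
    obtain ⟨G, hG, hG'⟩ := hx
    refine ⟨c • G, Submodule.smul_mem _ _ hG, ?_⟩
    have h1 : c • G = Polynomial.C (C c) * G := by
      rw [← Polynomial.smul_eq_C_mul, ← MvPolynomial.algebraMap_eq, algebraMap_smul]
    rw [h1, map_mul, evh_C, hG', PowerSeries.smul_eq_C_mul]
    ring

/-- independence over `K1` -/
theorem indep_line (hP : Pencil F (a - algebraMap ℂ FF a0) (b - algebraMap ℂ FF b0)) {m k : ℕ}
    (hden : ∀ ψ ∈ F (m + 1), ∃ G : BB ℂ,
      ev (K := ℂ) a b th (Polynomial.C g) ^ k * ψ = ev (K := ℂ) a b th G)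
    {D : ℕ} (v : Fin D → FF) (hv : ∀ i, v i ∈ F (m + 1))
    (hind : ∀ c : Fin D → ℂ,
      (∃ u ∈ F m, ∑ i, c i • v i = (a - algebraMap ℂ FF a0) * u) → c = 0)
    (f : Fin D → PowerSeries K1) (hf : ∀ i, JR a b th g a0 b0 θ (v i) (f i)) :
    LinearIndependent K1 f := by
  classical
  set α : FF := a - algebraMap ℂ FF a0 with hα
  set β : FF := b - algebraMap ℂ FF b0 with hβ
  rw [Fintype.linearIndependent_iff]
  intro c hc
  choose G hG using fun i => hden (v i) (hv i)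
  obtain ⟨q, hq⟩ := IsLocalization.exist_integer_multiples_of_finite
    (nonZeroDivisors (Polynomial ℂ)) c
  choose P hPc using hq
  have hq0 : (q : Polynomial ℂ) ≠ 0 := nonZeroDivisors.coe_ne_zero q
  have hsum : ∑ i, (algebraMap (Polynomial ℂ) K1 (P i)) • f i = 0 := by
    have h1 : ∀ i, (algebraMap (Polynomial ℂ) K1 (P i)) • f i =
        (algebraMap (Polynomial ℂ) K1 q) • (c i • f i) := by
      intro i
      rw [hPc, Algebra.smul_def (q : Polynomial ℂ) (c i), mul_smul]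
    simp only [h1]
    rw [← Finset.smul_sum, hc, smul_zero]
  obtain ⟨d, hd⟩ : ∃ d : ℕ, ∀ i, (P i).natDegree ≤ d :=
    ⟨Finset.univ.sup fun i => (P i).natDegree, fun i =>
      Finset.le_sup (f := fun i => (P i).natDegree) (Finset.mem_univ i)⟩
  -- homogenisation
  let H : Polynomial ℂ → BB ℂ := fun Q => Polynomial.C (∑ n ∈ Finset.range (d + 1),
    C (Q.coeff n) * ((X 0 - C a0) ^ n * (X 1 - C b0) ^ (d - n)))
  have hH1 : ∀ Q : Polynomial ℂ, Q.natDegree ≤ d → eps a0 b0 θ (H Q) =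
      PowerSeries.C (algebraMap (Polynomial ℂ) K1 Q) * PowerSeries.X ^ d := by
    intro Q hQ
    have e0 : Pool.Agent.W494.phi a0 b0 (X 0 - C a0) = PowerSeries.C lam * PowerSeries.X := by
      rw [map_sub, ← MvPolynomial.algebraMap_eq, (Pool.Agent.W494.phi a0 b0).commutes,
        Pool.Agent.W494.phi, aeval_X]
      show algebraMap ℂ (PowerSeries K1) a0 + _ - _ = _
      ring
    have e1 : Pool.Agent.W494.phi a0 b0 (X 1 - C b0) = PowerSeries.X := by
      rw [map_sub, ← MvPolynomial.algebraMap_eq, (Pool.Agent.W494.phi a0 b0).commutes,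
        Pool.Agent.W494.phi, aeval_X]
      show algebraMap ℂ (PowerSeries K1) b0 + _ - _ = _
      ring
    rw [eps_C, map_sum]
    have e2 : algebraMap (Polynomial ℂ) K1 Q =
        ∑ n ∈ Finset.range (d + 1), algebraMap ℂ K1 (Q.coeff n) * lam ^ n := by
      conv_lhs => rw [Q.as_sum_range' (d + 1) (by omega)]
      rw [map_sum]
      refine Finset.sum_congr rfl fun n _ => ?_
      rw [← Polynomial.C_mul_X_pow_eq_monomial, map_mul, map_pow]
      rfl
    rw [e2, map_sum, Finset.sum_mul]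
    refine Finset.sum_congr rfl fun n hn => ?_
    have hn' : n ≤ d := Nat.lt_succ_iff.1 (Finset.mem_range.1 hn)
    rw [map_mul, map_mul, map_pow, map_pow, e0, e1, ← MvPolynomial.algebraMap_eq,
      (Pool.Agent.W494.phi a0 b0).commutes, PowerSeries.algebraMap_apply, map_mul, map_pow]
    obtain ⟨e, rfl⟩ := Nat.exists_eq_add_of_le hn'
    rw [Nat.add_sub_cancel_left, pow_add]
    ring
  have hH2 : ∀ Q : Polynomial ℂ, Q.natDegree ≤ d → ev (K := ℂ) a b th (H Q) =
      β ^ d * Polynomial.aeval (α / β) Q := by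
    intro Q hQ
    have e1 : ev (K := ℂ) a b th (H Q) = ∑ n ∈ Finset.range (d + 1),
        algebraMap ℂ FF (Q.coeff n) * (α ^ n * β ^ (d - n)) := by
      show ev (K := ℂ) a b th (Polynomial.C _) = _
      rw [map_sum, map_sum]
      refine Finset.sum_congr rfl fun n _ => ?_
      simp only [map_mul, map_pow, map_sub]
      rw [ev_eq_evh, evh_C, evh_a, evh_b, evh_C, evh_C]
    rw [e1, Polynomial.aeval_eq_sum_range' (Nat.lt_succ_of_le hQ), Finset.mul_sum]
    refine Finset.sum_congr rfl fun n hn => ?_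
    have hn' : n ≤ d := Nat.lt_succ_iff.1 (Finset.mem_range.1 hn)
    rw [Algebra.smul_def, div_pow]
    have hβ0 : β ≠ 0 := hP.β0
    obtain ⟨e, rfl⟩ := Nat.exists_eq_add_of_le hn'
    rw [Nat.add_sub_cancel_left, pow_add]
    field_simp
  -- the relation in the function field
  have hrel : ∑ i, Polynomial.aeval (α / β) (P i) * v i = 0 := by
    have h1 : eps a0 b0 θ (∑ i, H (P i) * G i) = 0 := by
      have h2 : eps a0 b0 θ (∑ i, H (P i) * G i) = (PowerSeries.X ^ d *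
          eps a0 b0 θ (Polynomial.C g) ^ k) *
            ∑ i, (algebraMap (Polynomial ℂ) K1 (P i)) • f i := by
        rw [map_sum, Finset.mul_sum]
        refine Finset.sum_congr rfl fun i _ => ?_
        rw [map_mul, hH1 _ (hd i), ← JR.eq h (hf i) (hG i), PowerSeries.smul_eq_C_mul]
        ring
      rw [h2, hsum, mul_zero]
    have h2 := (h.ker _).2 (eps_ker Φ h.monic h.irr a0 b0 θ h.root _ h1)
    have h3 : (β ^ d * ev (K := ℂ) a b th (Polynomial.C g) ^ k) *
        ∑ i, Polynomial.aeval (α / β) (P i) * v i = 0 := by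
      rw [← h2, map_sum, Finset.mul_sum]
      refine Finset.sum_congr rfl fun i _ => ?_
      rw [map_mul, hH2 _ (hd i), ← hG i]
      ring
    exact (mul_eq_zero.1 h3).resolve_left
      (mul_ne_zero (pow_ne_zero _ hP.β0) (pow_ne_zero _ h.g_ne))
  have h4 := hP.indep_field v hv hind d P hd hrel
  intro i
  have h5 := hPc i
  rw [h4] at h5
  have h6 : (q : Polynomial ℂ) • c i = 0 := by
    rw [← h5]
    simp
  rw [Algebra.smul_def] at h6
  refine (mul_eq_zero.1 h6).resolve_left fun h7 => hq0 ?_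
  exact IsFractionRing.injective (Polynomial ℂ) K1 (by rw [h7, map_zero])

/-- an element of high order -/
theorem exists_order (hP : Pencil F (a - algebraMap ℂ FF a0) (b - algebraMap ℂ FF b0)) {m k : ℕ}
    (hden : ∀ ψ ∈ F (m + 1), ∃ G : BB ℂ,
      ev (K := ℂ) a b th (Polynomial.C g) ^ k * ψ = ev (K := ℂ) a b th G)
    (hD : 1 ≤ finrank ℂ (F (m + 1)) - finrank ℂ (F m)) :
    ∃ (n : ℕ) (u : PowerSeries K1),
      finrank ℂ (F (m + 1)) - finrank ℂ (F m) ≤ n + 1 ∧ PowerSeries.constantCoeff u ≠ 0 ∧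
      PowerSeries.X ^ n * u ∈ PP F a b th g a0 b0 θ (m + 1) := by
  obtain ⟨v, hv, hind⟩ := hP.exists_indep m
  obtain ⟨D, hDe⟩ : ∃ D, D = finrank ℂ (F (m + 1)) - finrank ℂ (F m) := ⟨_, rfl⟩
  rw [← hDe] at hD ⊢
  revert v
  rw [← hDe]
  intro v hv hind
  have hex : ∀ i, ∃ f, JR a b th g a0 b0 θ (v i) f := fun i => by
    obtain ⟨G, hG⟩ := hden (v i) (hv i)
    exact JR.exists h hG
  choose f hf using hex
  have hli := indep_line h hP hden v hv hind f hf
  -- a combination without small coefficients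
  let T : (Fin D → K1) →ₗ[K1] (Fin (D - 1) → K1) :=
    { toFun := fun c j => PowerSeries.coeff (j : ℕ) (∑ i, c i • f i)
      map_add' := fun x y => by
        funext j
        simp only [Pi.add_apply, add_smul, Finset.sum_add_distrib, map_add]
      map_smul' := fun c x => by
        funext j
        simp only [Pi.smul_apply, smul_eq_mul, mul_smul, ← Finset.smul_sum,
          RingHom.id_apply]
        rw [map_smul]
        rfl }
  have hT : LinearMap.ker T ≠ ⊥ := by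
    refine LinearMap.ker_ne_bot_of_finrank_lt ?_
    rw [finrank_fintype_fun_eq_card, finrank_fintype_fun_eq_card, Fintype.card_fin,
      Fintype.card_fin]
    omega
  obtain ⟨c, hc, hc0⟩ := Submodule.exists_mem_ne_zero_of_ne_bot hT
  set f0 : PowerSeries K1 := ∑ i, c i • f i with hf0
  have hf00 : f0 ≠ 0 := by
    intro h0
    apply hc0
    funext i
    exact Fintype.linearIndependent_iff.1 hli c h0 i
  have hcoef : ∀ j < D - 1, PowerSeries.coeff j f0 = 0 := fun j hj =>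
    congrFun (LinearMap.mem_ker.1 hc) ⟨j, hj⟩
  refine ⟨f0.order.toNat, f0.divXPowOrder, ?_, ?_, ?_⟩
  · have h1 : ((D - 1 : ℕ) : ℕ∞) ≤ f0.order := PowerSeries.nat_le_order _ _ hcoef
    have h2 : f0.order ≠ ⊤ := by
      rw [Ne, PowerSeries.order_eq_top]
      exact hf00
    have h3 : ((f0.order.toNat : ℕ) : ℕ∞) = f0.order := ENat.natCast_toNat h2
    rw [← h3] at h1
    have h4 : D - 1 ≤ f0.order.toNat := by exact_mod_cast h1
    omega
  · rw [Ne, PowerSeries.constantCoeff_divXPowOrder_eq_zero_iff]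
    exact hf00
  · rw [PowerSeries.X_pow_order_mul_divXPowOrder]
    refine Submodule.sum_mem _ fun i _ => Submodule.smul_mem _ _ ?_
    exact Submodule.subset_span ⟨v i, hv i, hf i⟩

end Data

end Pool.Agent.TH493.NEF
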