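import Mathlib

/-!
Relations between elements of a filtered function field over the constants of a pencil.
-/

set_option autoImplicit false

open Polynomial Module

namespace Pool.Agent.TH493.NEF

variable {k FF : Type*} [Field k] [Field FF] [Algebra k FF]

theorem exists_compl {U V : Type*} [AddCommGroup U] [Module k U] [AddCommGroup V] [Module k V]
    [FiniteDimensional k V] (T : U →ₗ[k] V) (hT : Function.Injective T) :
    ∃ v : Fin (finrank k V - finrank k U) → V,
      ∀ c : Fin (finrank k V - finrank k U) → k, (∃ u, ∑ i, c i • v i = T u) → c = 0 := by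
  obtain ⟨Cc, hC⟩ := (LinearMap.range T).exists_isCompl
  have h1 : finrank k (LinearMap.range T) = finrank k U := LinearMap.finrank_range_of_inj hT
  have h2 : finrank k Cc = finrank k V - finrank k U := by
    have := Submodule.finrank_add_eq_of_isCompl hC
    omega
  obtain ⟨D, hD⟩ : ∃ D, D = finrank k V - finrank k U := ⟨_, rfl⟩
  rw [← hD] at h2 ⊢
  obtain ⟨b⟩ : Nonempty (Basis (Fin D) k Cc) := ⟨(finBasis k Cc).reindex (finCongr h2)⟩
  refine ⟨fun i => (b i : V), fun c hc => ?_⟩
  obtain ⟨u, hu⟩ := hc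
  have h3 : ((∑ i, c i • b i : Cc) : V) = T u := by
    rw [← hu]
    push_cast
    rfl
  have h4 : ((∑ i, c i • b i : Cc) : V) = 0 := by
    have h5 : ((∑ i, c i • b i : Cc) : V) ∈ LinearMap.range T ⊓ Cc :=
      ⟨by rw [h3]; exact ⟨_, rfl⟩, (∑ i, c i • b i : Cc).2⟩
    rw [hC.inf_eq_bot] at h5
    exact h5
  have h5 : (∑ i, c i • b i : Cc) = 0 := Subtype.ext h4
  funext i
  exact Fintype.linearIndependent_iff.1 b.linearIndependent c h5 i

/-- A multiplicative filtration with a saturated pair `α, β`. -/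
structure Pencil (F : ℕ → Submodule k FF) (α β : FF) : Prop where
  fin : ∀ m, FiniteDimensional k (F m)
  one0 : (1 : FF) ∈ F 0
  one1 : (1 : FF) ∈ F 1
  mul : ∀ {i j : ℕ} {x y : FF}, x ∈ F i → y ∈ F j → x * y ∈ F (i + j)
  hα : α ∈ F 1
  hβ : β ∈ F 1
  α0 : α ≠ 0
  β0 : β ≠ 0
  sat : ∀ {m : ℕ} {ψ : FF} {j : ℕ}, α ^ j * ψ ∈ F (m + j) → β ^ j * ψ ∈ F (m + j) → ψ ∈ F m

namespace Pencil

variable {F : ℕ → Submodule k FF} {α β : FF} (h : Pencil F α β)

include h

theorem mono {m m' : ℕ} (hm : m ≤ m') : F m ≤ F m' := by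
  obtain ⟨d, rfl⟩ := Nat.exists_eq_add_of_le hm
  induction d with
  | zero => exact le_rfl
  | succ d ih =>
    refine (ih (Nat.le_add_right _ _)).trans ?_
    intro x hx
    have := h.mul hx h.one1
    rwa [mul_one] at this

theorem pow_mem {x : FF} (hx : x ∈ F 1) (n : ℕ) : x ^ n ∈ F n := by
  induction n with
  | zero => rw [pow_zero]; exact h.one0
  | succ n ih => rw [pow_succ]; exact h.mul ih hx

theorem hom_mem (d : ℕ) (Q : k[X]) (hQ : Q.natDegree ≤ d) :
    β ^ d * aeval (α / β) Q ∈ F d := by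
  rw [aeval_eq_sum_range' (Nat.lt_succ_of_le hQ), Finset.mul_sum]
  refine Submodule.sum_mem _ fun n hn => ?_
  have hn' : n ≤ d := Nat.lt_succ_iff.1 (Finset.mem_range.1 hn)
  have h1 : β ^ d * (Q.coeff n • (α / β) ^ n) = Q.coeff n • (α ^ n * β ^ (d - n)) := by
    rw [mul_smul_comm]
    congr 1
    rw [div_pow, mul_div_assoc', mul_comm (β ^ d), mul_div_assoc]
    congr 1
    rw [div_eq_iff (pow_ne_zero _ h.β0), ← pow_add, Nat.sub_add_cancel hn']
  rw [h1]
  refine Submodule.smul_mem _ _ ?_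
  have := h.mul (h.pow_mem h.hα n) (h.pow_mem h.hβ (d - n))
  rwa [Nat.add_sub_cancel' hn'] at this

theorem rel_zero {ι : Type*} [Fintype ι] {m : ℕ} (v : ι → FF) (hv : ∀ i, v i ∈ F (m + 1))
    (P : ι → k[X]) (hP : ∑ i, aeval (α / β) (P i) * v i = 0) :
    ∃ u ∈ F m, ∑ i, (P i).coeff 0 • v i = α * u := by
  classical
  obtain ⟨d, hd⟩ : ∃ d : ℕ, ∀ i, (P i).natDegree ≤ d :=
    ⟨Finset.univ.sup fun i => (P i).natDegree, fun i =>
      Finset.le_sup (f := fun i => (P i).natDegree) (Finset.mem_univ i)⟩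
  set S : FF := ∑ i, (P i).coeff 0 • v i with hS
  set T : FF := ∑ i, aeval (α / β) (P i).divX * v i with hT
  have h1 : (α / β) * T + S = 0 := by
    rw [← hP, hT, hS, Finset.mul_sum, ← Finset.sum_add_distrib]
    refine Finset.sum_congr rfl fun i _ => ?_
    conv_rhs => rw [← divX_mul_X_add (P i)]
    rw [map_add, map_mul, aeval_X, aeval_C, Algebra.smul_def]
    ring
  refine ⟨S / α, h.sat (j := d + 1) ?_ ?_, (mul_div_cancel₀ _ h.α0).symm⟩
  · have h2 : α ^ (d + 1) * (S / α) = α ^ d * S := by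
      rw [pow_succ, mul_assoc, mul_div_cancel₀ _ h.α0]
    rw [h2, show m + (d + 1) = d + (m + 1) by ring]
    refine h.mul (h.pow_mem h.hα d) ?_
    exact Submodule.sum_mem _ fun i _ => Submodule.smul_mem _ _ (hv i)
  · have h2 : β ^ (d + 1) * (S / α) = - (β ^ d * T) := by
      have h3 : S = - ((α / β) * T) := by linear_combination h1
      rw [h3, pow_succ]
      field_simp [h.α0, h.β0]
    rw [h2, show m + (d + 1) = d + (m + 1) by ring]
    refine Submodule.neg_mem _ ?_
    rw [hT, Finset.mul_sum]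
    refine Submodule.sum_mem _ fun i _ => ?_
    rw [← mul_assoc]
    refine h.mul (h.hom_mem d _ ?_) (hv i)
    exact (natDegree_divX_le).trans (hd i)

theorem indep_field {ι : Type*} [Fintype ι] {m : ℕ} (v : ι → FF) (hv : ∀ i, v i ∈ F (m + 1))
    (hind : ∀ c : ι → k, (∃ u ∈ F m, ∑ i, c i • v i = α * u) → c = 0) (d : ℕ) :
    ∀ P : ι → k[X], (∀ i, (P i).natDegree ≤ d) → ∑ i, aeval (α / β) (P i) * v i = 0 →
      P = 0 := by
  induction d with
  | zero =>
    intro P hd hP
    have h1 := hind _ (h.rel_zero v hv P hP)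
    funext i
    have h2 : (P i).coeff 0 = 0 := congrFun h1 i
    rw [eq_C_of_natDegree_le_zero (hd i), h2, C_0]
    rfl
  | succ d ih =>
    intro P hd hP
    have h1 := hind _ (h.rel_zero v hv P hP)
    have h2 : ∀ i, P i = (P i).divX * X := by
      intro i
      have h3 : (P i).coeff 0 = 0 := congrFun h1 i
      conv_lhs => rw [← divX_mul_X_add (P i)]
      rw [h3, C_0, add_zero]
    have h3 := ih (fun i => (P i).divX) (fun i => by
      rw [natDegree_divX_eq_natDegree_tsub_one]
      have := hd i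
      omega) (by
      have h4 : (α / β) * ∑ i, aeval (α / β) (P i).divX * v i = 0 := by
        rw [← hP, Finset.mul_sum]
        refine Finset.sum_congr rfl fun i _ => ?_
        conv_rhs => rw [h2 i]
        rw [map_mul, aeval_X]
        ring
      exact (mul_eq_zero.1 h4).resolve_left (div_ne_zero h.α0 h.β0))
    funext i
    rw [h2 i, congrFun h3 i]
    simp

theorem exists_indep (m : ℕ) : ∃ v : Fin (finrank k (F (m + 1)) - finrank k (F m)) → FF,
    (∀ i, v i ∈ F (m + 1)) ∧
      ∀ c : Fin (finrank k (F (m + 1)) - finrank k (F m)) → k,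
        (∃ u ∈ F m, ∑ i, c i • v i = α * u) → c = 0 := by
  have i1 := h.fin (m + 1)
  have i2 := h.fin m
  -- the image of `F m`
  let T : F m →ₗ[k] F (m + 1) :=
    { toFun := fun u => ⟨α * u, by
        rw [add_comm]
        exact h.mul h.hα u.2⟩
      map_add' := fun x y => Subtype.ext (mul_add _ _ _)
      map_smul' := fun c x => Subtype.ext (mul_smul_comm _ _ _) }
  have hT : Function.Injective T := by
    intro x y hxy
    exact Subtype.ext (mul_left_cancel₀ h.α0 (congrArg Subtype.val hxy))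
  obtain ⟨v, hv⟩ := exists_compl T hT
  refine ⟨fun i => (v i : FF), fun i => (v i).2, fun c hc => ?_⟩
  obtain ⟨u, hu, hcu⟩ := hc
  refine hv c ⟨⟨u, hu⟩, Subtype.ext ?_⟩
  show ((∑ i, c i • v i : F (m + 1)) : FF) = α * u
  rw [← hcu]
  push_cast
  rfl

end Pencil

end Pool.Agent.TH493.NEF
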